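import Pool.Agent.H312R2.RG.VW2

/-!
# Class sums of the repelling weights, with a shift and an extra modulus
-/

set_option autoImplicit false
set_option maxHeartbeats 4000000

namespace Pool.Agent.Q117.RP

open Finset Filter
open Pool.Agent.H378R2
open Pool.Agent.H378R2.LSBV (QQ mem_QQ TT)
open Pool.Agent.H256R2.SC (Col emb colr Lv emb_mem emb_surj colr_eq qq wt_nonneg)
open Pool.Agent.H312R2.RG

/-- class sums with the weight `Phi` modulo `W m q`, with the shift `t i` -/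
def ClassC {K : ℕ} (X : ℝ) (W ps m : ℕ) (t : Fin K → ℕ) (i : Fin K) (G : ℤ → ℝ) (M : ℝ) (err : ℕ → ℝ) : Prop :=
  ∀ q b : ℕ, q ∈ QQ W ps ⌊Real.exp (2 * LL X)⌋₊ →
    (∀ p : ℕ, p.Prime → p ∣ q → ∃ j, (p : ℤ) ∣ (b : ℤ) + t j - t i) →
    |∑ n ∈ (Icc 1 ⌊3 * X⌋₊).filter (fun n => n ≡ b [MOD W * m * q]), Phi (n / X) * G ((n : ℤ) - t i) -
      M * (MPhi X * (1 / (W : ℝ))) * (1 / (m : ℝ)) * (1 / (q : ℝ))| ≤ err q

theorem classC_of {K : ℕ} (X : ℝ) (hX : 4 ≤ X) (t : Fin K → ℕ) (U : Finset ℕ) (ps : ℕ) (S : Finset ℕ) (y : ℝ)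
    (PP : Finset ℕ) (hPP : MedP ps y PP) (hyy : (yy X : ℝ) ≤ y) (ht : ∀ j, (t j : ℝ) ≤ y)
    (hU : ∀ k ∈ U, (k : ℝ) ≤ y) (htU : ∀ j, t j ∉ U) (G : Col PP.card ↥U → ℝ) (Q₁ B₁ : ℝ) (hQ₁ : 0 ≤ Q₁)
    (hG : Lv (pP PP) Q₁ B₁ G) (m : ℕ) (hm : m = 1 ∨ (m = ps ∧ ps.Prime)) (hmX : (m : ℝ) ≤ X ^ (1 / 100 : ℝ))
    (hsize : (WW X S ps : ℝ) * X ^ (1 / 100 : ℝ) * X ^ (1 / 100 : ℝ) * Q₁ ≤ X) (i : Fin K) :
    ClassC X (WW X S ps) ps m t i (fun a => G (colr PP (resU U 0) a)) (Pool.Agent.H256R2.SC.EE (gP PP) G)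
      (fun q => MPhi X * (1 / (WW X S ps : ℝ)) * (1 / (q : ℝ)) *
        |Pool.Agent.H256R2.SC.EE (gP PP) (fun x => G (cut (mq PP (WW X S ps * q)) x)) -
          Pool.Agent.H256R2.SC.EE (gP PP) G| + 5 * B₁) := by
  intro q b hq hb
  rw [mem_QQ] at hq
  obtain ⟨⟨hq1, hqR⟩, hsq, hcop⟩ := hq
  obtain ⟨W, hW⟩ : ∃ W, W = WW X S ps := ⟨_, rfl⟩
  rw [← hW] at hcop hsize ⊢
  have hWpos : 0 < W := by rw [hW]; exact WW_pos X S ps
  have hWr : (0 : ℝ) < W := by exact_mod_cast hWpos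
  have hqr : (0 : ℝ) < q := by exact_mod_cast hq1
  have hm1 : 1 ≤ m := by
    rcases hm with h | ⟨h, h2⟩
    · omega
    · rw [h]; exact h2.pos
  have hmr : (0 : ℝ) < m := by exact_mod_cast hm1
  have hm1r : (1 : ℝ) ≤ m := by exact_mod_cast hm1
  have hN₀ : 0 < W * m * q := Nat.mul_pos (Nat.mul_pos hWpos hm1) hq1
  have hqX : (q : ℝ) ≤ X ^ (1 / 100 : ℝ) := by
    rw [← exp_two_LL X (by linarith)]
    exact (Nat.le_floor_iff (Real.exp_pos _).le).1 hqR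
  -- the medium primes dividing the modulus
  have hdv : ∀ p ∈ PP, (p ∣ W * m * q ↔ p ∣ W * q) := by
    intro p hp
    obtain ⟨hpp, _, hps⟩ := hPP p hp
    have hpm : ¬ p ∣ m := by
      rcases hm with h | ⟨h, h2⟩
      · rw [h]
        intro hd
        exact hpp.one_lt.ne' (Nat.dvd_one.1 hd)
      · rw [h]
        intro hd
        exact hps ((Nat.prime_dvd_prime_iff_eq hpp h2).1 hd)
    rw [hpp.dvd_mul, hpp.dvd_mul, hpp.dvd_mul]
    tauto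
  have hmqe : mq PP (W * m * q) = mq PP (W * q) := by
    unfold mq
    apply filter_congr
    intro j _
    exact hdv _ (emb_mem PP j)
  have h1 := class_phi X hX PP (fun p hp => (hPP p hp).1) (resU U (t i : ℤ))
    (fun p hp k l => resU_inj hU (t i : ℤ) (hPP p hp).2.1 k l) (W * m * q) b hN₀ (mq PP (W * m * q))
    (fun i => by unfold mq; rw [mem_filter]; exact ⟨fun h => h.2, fun h => ⟨mem_univ _, h⟩⟩)
    (by
      intro i' hi k hd
      rw [hmqe] at hi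
      unfold mq at hi
      rw [mem_filter] at hi
      obtain ⟨hp, hyp, _⟩ := hPP _ (emb_mem PP i')
      rcases (Nat.Prime.dvd_mul hp).1 hi.2 with h | h
      · rw [hW] at h
        have h2 := (mem_PW.1 ((prime_dvd_WW hp).1 h)).1
        have h3 : ((emb PP i' : ℕ) : ℝ) ≤ yy X := by exact_mod_cast h2
        linarith
      · obtain ⟨j, hj⟩ := hb _ hp h
        have h2 : ((emb PP i' : ℕ) : ℤ) ∣ (t j : ℤ) - ((k : ℕ) : ℤ) := by
          have h3 := dvd_sub hj hd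
          have h4 : (b : ℤ) + t j - t i - ((b : ℤ) - resU U (t i : ℤ) (emb PP i') k) = (t j : ℤ) - ((k : ℕ) : ℤ) := by
            unfold resU; ring
          rwa [h4] at h3
        exact not_dvd_diff (ht j) (hU k k.2) hyp (fun h => htU j (h ▸ k.2)) h2)
    G Q₁ B₁ hG (by
      push_cast
      calc (W : ℝ) * m * q * Q₁ ≤ W * X ^ (1 / 100 : ℝ) * X ^ (1 / 100 : ℝ) * Q₁ := by gcongr
        _ ≤ X := hsize)
  rw [hmqe] at h1
  obtain ⟨Ec, hEc⟩ : ∃ Ec, Ec = Pool.Agent.H256R2.SC.EE (gP PP) (fun x => G (cut (mq PP (W * q)) x)) := ⟨_, rfl⟩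
  obtain ⟨E0, hE0⟩ : ∃ E0, E0 = Pool.Agent.H256R2.SC.EE (gP PP) G := ⟨_, rfl⟩
  rw [← hEc] at h1
  rw [← hE0]
  simp only
  rw [← hEc]
  have hMnn : 0 ≤ MPhi X := by
    unfold MPhi
    exact Finset.sum_nonneg fun n _ => Phi_nonneg _
  have h2 : ((W * m * q : ℕ) : ℝ) = (W : ℝ) * m * q := by push_cast; ring
  rw [h2] at h1
  obtain ⟨P, hP⟩ : ∃ P, P = MPhi X * (1 / (W : ℝ)) * (1 / (q : ℝ)) := ⟨_, rfl⟩
  have hPnn : 0 ≤ P := by rw [hP]; positivity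
  have h3 : MPhi X * (1 / ((W : ℝ) * m * q)) = P * (1 / (m : ℝ)) := by
    rw [hP]
    field_simp
  rw [h3] at h1
  have hshift : ∀ n : ℕ, colr PP (resU U 0) ((n : ℤ) - t i) = colr PP (resU U (t i : ℤ)) (n : ℤ) :=
    fun n => colr_shift hU (fun p hp => (hPP p hp).2.1) (n : ℤ) (t i : ℤ)
  have h5 : ∑ n ∈ (Icc 1 ⌊3 * X⌋₊).filter (fun n => n ≡ b [MOD W * m * q]), Phi (n / X) *
      G (colr PP (resU U 0) ((n : ℤ) - t i)) =
      ∑ n ∈ (Icc 1 ⌊3 * X⌋₊).filter (fun n => n ≡ b [MOD W * m * q]), Phi (n / X) *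
        G (colr PP (resU U (t i : ℤ)) (n : ℤ)) := by
    apply Finset.sum_congr rfl
    intro n _
    simp only [hshift n]
  rw [h5]
  have h6 : ∑ n ∈ (Icc 1 ⌊3 * X⌋₊).filter (fun n => n ≡ b [MOD W * m * q]), Phi (n / X) *
        G (colr PP (resU U (t i : ℤ)) (n : ℤ)) - E0 * (MPhi X * (1 / (W : ℝ))) * (1 / (m : ℝ)) * (1 / (q : ℝ)) =
      (∑ n ∈ (Icc 1 ⌊3 * X⌋₊).filter (fun n => n ≡ b [MOD W * m * q]), Phi (n / X) *
        G (colr PP (resU U (t i : ℤ)) (n : ℤ)) - P * (1 / (m : ℝ)) * Ec) + P * (1 / (m : ℝ)) * (Ec - E0) := by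
    rw [hP]; ring
  rw [h6, ← hP]
  refine (abs_add_le _ _).trans ?_
  rw [abs_mul, abs_of_nonneg (mul_nonneg hPnn (by positivity))]
  have h7 : P * (1 / (m : ℝ)) * |Ec - E0| ≤ P * |Ec - E0| := by
    apply mul_le_mul_of_nonneg_right _ (abs_nonneg _)
    have h8 : 1 / (m : ℝ) ≤ 1 := by
      rw [div_le_one hmr]
      exact hm1r
    calc P * (1 / (m : ℝ)) ≤ P * 1 := mul_le_mul_of_nonneg_left h8 hPnn
      _ = P := mul_one P
  linarith

end Pool.Agent.Q117.RP
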