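import Pool.Agent.Q117.GP.Cover
import Pool.Agent.Q117.CW.Pattern
import Pool.Agent.H312R2.RG.A1

/-!
# Sieving the interval `[0, c f(X)]` of record length down to `c₃ log X` numbers, keeping a prescribed admissible set
-/

set_option autoImplicit false
set_option maxHeartbeats 4000000

namespace Pool.Agent.Q117.RP

open Finset Filter
open Pool.Agent.H378R2 (GoodS GoodP WW PW yy z2)
open Pool.Agent.Q117.CW (shiftZ shiftZ_card shift_not avoid crt)
open Pool.Agent.Q117.GP (Adm shift_ex ev_all rsurvG)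
open Pool.Agent.H256R2.SC (ff)

/-- **Sieving the interval `[0, c f(X)]`, keeping a prescribed admissible set.** -/
theorem coverR (k : ℕ) (hk : 1 ≤ k) (c₃ : ℝ) (hc₃ : 0 < c₃) : ∃ c : ℝ, 0 < c ∧ ∃ X0 : ℝ, ∀ X : ℝ, X0 ≤ X → ∀ (ps : ℕ) (S : Finset ℕ),
    GoodP 2 ps → GoodS X S → ∀ H : Finset ℕ, H.card = k → (∀ h ∈ H, (h : ℝ) ≤ c * ff X) → Adm H →
    ∃ a : ℕ, (∀ h ∈ H, (a + h).Coprime (WW X S ps)) ∧
      (((range (⌊c * ff X⌋₊ + 1)).filter (fun s => s ∉ H ∧ (a + s).Coprime (WW X S ps))).card : ℝ) ≤ c₃ * Real.log X := by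
  classical
  obtain ⟨C, hC, y₀, hrs⟩ := rsurvG k
  obtain ⟨t, ht, L₀, hsh⟩ := shift_ex k hk
  have ht0 : (0 : ℝ) < t := by exact_mod_cast ht
  obtain ⟨c, hcdef⟩ : ∃ c : ℝ, c = min (1 / 2) (c₃ / (16 * C)) := ⟨_, rfl⟩
  have hc0 : 0 < c := by rw [hcdef]; exact lt_min (by norm_num) (by positivity)
  have hc1 : c ≤ 1 / 2 := by rw [hcdef]; exact min_le_left _ _
  have hc2 : c ≤ c₃ / (16 * C) := by rw [hcdef]; exact min_le_right _ _
  obtain ⟨K, hKdef⟩ : ∃ K : ℝ, K = 80000 * (4 * t * k + k + 4) := ⟨_, rfl⟩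
  have hK1 : 1 ≤ K := by
    rw [hKdef]
    have : (0 : ℝ) ≤ 4 * t * k + k := by positivity
    linarith
  obtain ⟨X0, hev⟩ := ev_all (c / 2) (by positivity) t ht K ((y₀ : ℝ) + L₀ + k) hK1
  have hB' : Tendsto (fun X : ℝ => Real.log (Real.log (Real.log X))) atTop atTop :=
    Real.tendsto_log_atTop.comp (Real.tendsto_log_atTop.comp Real.tendsto_log_atTop)
  obtain ⟨X1, hX1⟩ := eventually_atTop.1 (hB'.eventually_ge_atTop 8000)
  refine ⟨c, hc0, max X0 X1, ?_⟩
  intro X hX ps S hps hS H hHc hHle hadm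
  obtain ⟨T, hT⟩ : ∃ T, T = Real.log X := ⟨_, rfl⟩
  obtain ⟨A, hA⟩ : ∃ A, A = Real.log T := ⟨_, rfl⟩
  obtain ⟨B, hB⟩ : ∃ B, B = Real.log A := ⟨_, rfl⟩
  obtain ⟨D, hD⟩ : ∃ D, D = Real.log B := ⟨_, rfl⟩
  obtain ⟨a1, a2, a3, a4, a5, a6, a7, a8, a9, a10, a11, a12, a13, a14⟩ := hev X ((le_max_left _ _).trans hX) T A B D hT hA hB hD
  have a15 : 8000 ≤ B := by
    rw [hB, hA, hT]
    exact hX1 X ((le_max_right _ _).trans hX)
  have hR : ff X = T * A ^ 2 * D / B ^ 2 := by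
    unfold ff
    rw [← hT, ← hA, ← hB, ← hD]
  have hT0 : 0 < T := by linarith
  have hA0 : 0 < A := by linarith
  have hB0 : 0 < B := by linarith
  have hD0 : 0 < D := by linarith
  -- y
  obtain ⟨y, hy⟩ : ∃ y, y = yy X := ⟨_, rfl⟩
  have hyT : (y : ℝ) ≤ T / 1000 := by
    rw [hy]
    unfold yy
    rw [← hT]
    exact Nat.floor_le (by positivity)
  have hyT2 : T / 2000 ≤ y := by
    have h1 : T / 1000 < (y : ℝ) + 1 := by
      rw [hy]
      unfold yy
      rw [← hT]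
      exact Nat.lt_floor_add_one _
    linarith
  have hy0 : (0 : ℝ) < y := by linarith [show 0 < T / 2000 by positivity]
  have hbig : ((y₀ : ℝ) + L₀ + k) + 2 ≤ T / 20000 := by
    have : (0 : ℝ) ≤ (y₀ : ℝ) + L₀ + k := by positivity
    linarith
  have hyy0 : y₀ ≤ y := by
    have h1 : (y₀ : ℝ) ≤ y := by linarith [Nat.cast_nonneg (α := ℝ) L₀, Nat.cast_nonneg (α := ℝ) k]
    exact_mod_cast h1
  have hly1 : Real.log y ≤ A := by
    rw [hA]; apply Real.log_le_log hy0; linarith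
  have hly2 : A / 2 ≤ Real.log y := by
    have h1 : Real.log (T / 2000) ≤ Real.log y := Real.log_le_log (by positivity) hyT2
    rw [Real.log_div hT0.ne' (by norm_num), ← hA] at h1
    have h2 : Real.log 2000 ≤ Real.log 20000 := Real.log_le_log (by norm_num) (by norm_num)
    linarith
  have hly0 : 0 < Real.log y := by linarith
  have hl2y1 : Real.log (Real.log y) ≤ B := by rw [hB]; exact Real.log_le_log hly0 hly1
  have hl2y2 : B / 2 ≤ Real.log (Real.log y) := by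
    have h1 : Real.log (A / 2) ≤ Real.log (Real.log y) := Real.log_le_log (by positivity) hly2
    rw [Real.log_div hA0.ne' (by norm_num), ← hB] at h1
    linarith
  have hl2y0 : 0 < Real.log (Real.log y) := by linarith
  have hl3y2 : D / 2 ≤ Real.log (Real.log (Real.log y)) := by
    have h1 : Real.log (B / 2) ≤ Real.log (Real.log (Real.log y)) := Real.log_le_log (by positivity) hl2y2
    rw [Real.log_div hB0.ne' (by norm_num), ← hD] at h1
    linarith
  -- L
  obtain ⟨L, hL⟩ : ∃ L : ℕ, L = ⌊c * ff X⌋₊ := ⟨_, rfl⟩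
  have hcR0 : 0 ≤ c * ff X := by rw [hR]; positivity
  have hLle : (L : ℝ) ≤ c * ff X := by rw [hL]; exact Nat.floor_le hcR0
  have hT1 : 2 * T ≤ c * ff X := by
    rw [hR, mul_div_assoc', le_div_iff₀ (by positivity)]
    have h1 : T * B ^ 2 ≤ T * (c / 2 * A) := by gcongr
    have h2 : T * (c / 2 * A) ≤ T * (c / 2 * A) * D := by
      have : 0 ≤ T * (c / 2 * A) := by positivity
      nlinarith
    have h3 : T * (c / 2 * A) * D ≤ T * (c / 2 * A ^ 2) * D := by
      have h4 : A ≤ A ^ 2 := by nlinarith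
      gcongr
    linarith [show c * (T * A ^ 2 * D) = 2 * (T * (c / 2 * A ^ 2) * D) by ring]
  have hTL : T ≤ L := by
    have h1 : c * ff X < (L : ℝ) + 1 := by rw [hL]; exact Nat.lt_floor_add_one _
    linarith
  have hL0 : (0 : ℝ) < L := by linarith
  have hyH : y ≤ 2 * L := by
    have h1 : (y : ℝ) ≤ ((2 * L : ℕ) : ℝ) := by
      push_cast
      linarith
    exact_mod_cast h1
  have hHy : ((2 * L : ℕ) : ℝ) ≤ y * (Real.log y) ^ 2 := by
    push_cast
    have h1 : T / 2000 * (A / 2) ^ 2 ≤ y * (Real.log y) ^ 2 := by gcongr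
    refine le_trans ?_ h1
    have h2 : c * ff X ≤ T * A ^ 2 / 16000 := by
      rw [hR, mul_div_assoc', div_le_iff₀ (by positivity)]
      have h3 : 8000 * D ≤ B ^ 2 := by nlinarith
      have h5 : 0 ≤ T * A ^ 2 := by positivity
      have h4 : c * (T * A ^ 2 * D) ≤ 1 / 2 * (T * A ^ 2 * D) := by gcongr
      have h6 : T * A ^ 2 * (8000 * D) ≤ T * A ^ 2 * B ^ 2 := by gcongr
      linarith [show T * A ^ 2 / 16000 * B ^ 2 = 1 / 16000 * (T * A ^ 2 * B ^ 2) by ring]
    linarith [show T / 2000 * (A / 2) ^ 2 = T * A ^ 2 / 8000 by ring]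
  have hLL0 : L₀ ≤ L := by
    have h1 : (L₀ : ℝ) ≤ L := by
      linarith [Nat.cast_nonneg (α := ℝ) y₀, Nat.cast_nonneg (α := ℝ) k]
    exact_mod_cast h1
  have hL2 : 2 ≤ L := by
    have h1 : (2 : ℝ) ≤ L := by linarith
    exact_mod_cast h1
  have hHL : ∀ h ∈ H, h ≤ L := fun h hh => by rw [hL]; exact Nat.le_floor (hHle h hh)
  -- the shift
  obtain ⟨t₀, ht1, ht2, ht3⟩ := hsh L hLL0 H hHc hadm
  have hz : T ^ (1 / (t : ℝ)) ≤ (L : ℝ) ^ (1 / (t : ℝ)) := Real.rpow_le_rpow hT0.le hTL (by positivity)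
  have hzK : K * A ^ 2 ≤ (L : ℝ) ^ (1 / (t : ℝ)) := a12.trans hz
  have hA2 : (1 : ℝ) ≤ A ^ 2 := by nlinarith
  have hrough : ∀ h ∈ H, ∀ q : ℕ, q.Prime → q ∣ t₀ + h → (L : ℝ) ^ (1 / (t : ℝ)) < q := by
    intro h hh q hq hd
    by_contra hcon
    exact ht3 h hh q hq (not_lt.1 hcon) hd
  have hlarge : ∀ h ∈ H, ∀ q : ℕ, q.Prime → q ∣ t₀ + h → K < q := by
    intro h hh q hq hd
    have h1 := hrough h hh q hq hd
    nlinarith
  -- S'
  obtain ⟨S', hS'⟩ : ∃ S' : Finset ℕ, S' = H.biUnion (fun h => (t₀ + h).primeFactors) := ⟨_, rfl⟩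
  have hS'm : ∀ q, q ∈ S' ↔ ∃ h ∈ H, q.Prime ∧ q ∣ t₀ + h := by
    intro q
    rw [hS', mem_biUnion]
    constructor
    · rintro ⟨h, hh, h1⟩
      exact ⟨h, hh, Nat.prime_of_mem_primeFactors h1, Nat.dvd_of_mem_primeFactors h1⟩
    · rintro ⟨h, hh, h1, h2⟩
      exact ⟨h, hh, Nat.mem_primeFactors.2 ⟨h1, h2, by omega⟩⟩
  have hS'card : (S'.card : ℝ) ≤ 2 * t * k := by
    have h1 : S'.card ≤ ∑ h ∈ H, (t₀ + h).primeFactors.card := by
      rw [hS']
      exact card_biUnion_le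
    have h2 : ∀ h ∈ H, (t₀ + h).primeFactors.card ≤ 2 * t := by
      intro h hh
      have h3 : (t₀ + h).primeFactors.card ≤ (t₀ + h).primeFactorsList.length := by
        unfold Nat.primeFactors
        exact List.toFinset_card_le _
      refine h3.trans ?_
      apply Pool.Agent.Q117.CB.omega_le (H := L) (t := (t : ℝ)) (M := 2) hL2 ht0 (by omega)
      · have h4 := hHL h hh
        have h5 : t₀ + h ≤ L ^ 2 := by nlinarith
        have h6 : (L : ℝ) ^ (2 : ℝ) = ((L ^ 2 : ℕ) : ℝ) := by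
          rw [show (2 : ℝ) = ((2 : ℕ) : ℝ) by norm_num, Real.rpow_natCast]
          push_cast
          ring
        rw [h6]
        exact_mod_cast h5
      · intro q hq hd
        exact (hrough h hh q hq hd).le
      · push_cast
        linarith
    have h3 : S'.card ≤ k * (2 * t) := by
      refine h1.trans ?_
      rw [← hHc, ← smul_eq_mul]
      exact sum_le_card_nsmul _ _ _ h2
    have h4 : (S'.card : ℝ) ≤ ((k * (2 * t) : ℕ) : ℝ) := by exact_mod_cast h3
    push_cast at h4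
    linarith
  have hS'sum : ∑ q ∈ S', (1 : ℝ) / q ≤ 6 / A ^ 2 := by
    have h1 : ∀ q ∈ S', (1 : ℝ) / q ≤ 1 / (K * A ^ 2) := by
      intro q hq
      obtain ⟨h, hh, h2, h3⟩ := (hS'm q).1 hq
      apply one_div_le_one_div_of_le (by positivity)
      exact hzK.trans (hrough h hh q h2 h3).le
    have h2 := sum_le_card_nsmul _ _ _ h1
    rw [nsmul_eq_mul] at h2
    refine h2.trans ?_
    calc (S'.card : ℝ) * (1 / (K * A ^ 2)) ≤ (2 * t * k) * (1 / (K * A ^ 2)) := by gcongr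
      _ = (2 * t * k / K) / A ^ 2 := by field_simp
      _ ≤ 6 / A ^ 2 := by
        gcongr
        rw [div_le_iff₀ (by positivity), hKdef]
        have : (0 : ℝ) ≤ t * k := by positivity
        have : (0 : ℝ) ≤ k := by positivity
        nlinarith
  have hz2 : 2 ≤ z2 X := by
    have h1 : Real.log (Real.log X) ^ 3 ≤ (z2 X : ℝ) := by
      unfold z2
      exact Nat.le_ceil _
    have h2 : (2 : ℝ) ≤ Real.log (Real.log X) ^ 3 := by
      rw [← hT, ← hA]
      nlinarith [sq_nonneg A]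
    have : (2 : ℝ) ≤ (z2 X : ℝ) := h2.trans h1
    exact_mod_cast this
  have hSS : ∀ q ∈ S ∪ S', q.Prime ∧ 2 < q := by
    intro q hq
    rw [mem_union] at hq
    rcases hq with hq | hq
    · exact ⟨(hS.1 q hq).1, by have := (hS.1 q hq).2.1; omega⟩
    · obtain ⟨h, hh, h2, h3⟩ := (hS'm q).1 hq
      refine ⟨h2, ?_⟩
      have h4 := hlarge h hh q h2 h3
      have h5 : (2 : ℝ) < q := by
        have : (2 : ℝ) ≤ K := by
          rw [hKdef]
          have : (0 : ℝ) ≤ 4 * t * k + k := by positivity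
          linarith
        linarith
      exact_mod_cast h5
  have hSSsum : ∑ q ∈ S ∪ S', (1 : ℝ) / q ≤ 12 / (Real.log y) ^ 2 := by
    have h1 : ∑ q ∈ S ∪ S', (1 : ℝ) / q ≤ ∑ q ∈ S, (1 : ℝ) / q + ∑ q ∈ S', (1 : ℝ) / q := by
      rw [← sum_union_inter]
      have : 0 ≤ ∑ q ∈ S ∩ S', (1 : ℝ) / q := sum_nonneg fun q _ => by positivity
      linarith
    have h2 := hS.2
    rw [← hT, ← hA] at h2
    have h3 : (6 : ℝ) / A ^ 2 + 6 / A ^ 2 ≤ 12 / (Real.log y) ^ 2 := by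
      rw [← add_div, show (6 : ℝ) + 6 = 12 by norm_num]
      apply div_le_div_of_nonneg_left (by norm_num) (by positivity)
      gcongr
    linarith
  have hps' : ps = 1 ∨ (ps.Prime ∧ 2 < ps) := hps
  -- the positions
  obtain ⟨e, he⟩ : ∃ e : Fin k → ℕ, e = fun j => H.orderEmbOfFin hHc j := ⟨_, rfl⟩
  have heH : ∀ j, e j ∈ H := fun j => by rw [he]; exact Finset.orderEmbOfFin_mem H hHc j
  have heS : ∀ h ∈ H, ∃ j, e j = h := by
    intro h hh
    have h1 := Finset.range_orderEmbOfFin H hHc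
    have h2 : h ∈ Set.range (H.orderEmbOfFin hHc) := by
      rw [h1]
      exact_mod_cast hh
    obtain ⟨j, hj⟩ := h2
    exact ⟨j, by rw [he]; exact hj⟩
  obtain ⟨b, hb1, hb2⟩ := hrs y hyy0 (S ∪ S') ps hSS hSSsum hps' (2 * L) hyH hHy (fun j => t₀ + e j) (by
    intro j
    refine ⟨?_, ?_⟩
    · intro p hp _ hpS _ hd
      apply hpS
      rw [mem_union]
      exact Or.inr ((hS'm p).2 ⟨e j, heH j, hp, hd⟩)
    · have := hHL (e j) (heH j)
      omega)
  obtain ⟨U, hUdef⟩ : ∃ U : Finset ℕ, U = (range (2 * L + 1)).filter (fun s => (∀ j, s ≠ t₀ + e j) ∧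
    ∀ p : ℕ, p.Prime → p ≤ y → p ∉ S ∪ S' → p ≠ ps → ¬ s ≡ b p [MOD p]) := ⟨_, rfl⟩
  have hUc : (U.card : ℝ) ≤ C * ((2 * L : ℕ) : ℝ) * (Real.log (Real.log y)) ^ 2 /
      ((Real.log y) ^ 2 * Real.log (Real.log (Real.log y))) := by
    refine le_trans ?_ hb2
    rw [hUdef]
  have hUc2 : (U.card : ℝ) ≤ c₃ * T := by
    refine hUc.trans ?_
    push_cast
    calc C * (2 * (L : ℝ)) * (Real.log (Real.log y)) ^ 2 / ((Real.log y) ^ 2 * Real.log (Real.log (Real.log y)))
        ≤ C * (2 * (c * ff X)) * B ^ 2 / ((A / 2) ^ 2 * (D / 2)) := by gcongr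
      _ = 16 * C * c * T := by
          rw [hR]
          field_simp
          ring
      _ ≤ 16 * C * (c₃ / (16 * C)) * T := by gcongr
      _ = c₃ * T := by field_simp
  -- the residues
  have hex : ∀ p : ℕ, ∃ r : ℕ, p.Prime → p ≤ y → p ∉ S → p ≠ ps → ((∀ h ∈ H, ¬ p ∣ r + (t₀ + h)) ∧
      (p ∉ S' → ∀ s, s ≡ b p [MOD p] → p ∣ r + s)) := by
    intro p
    by_cases hp : p.Prime
    swap
    · exact ⟨0, fun h => absurd h hp⟩
    by_cases hpS : p ∈ S
    · exact ⟨0, fun _ _ h => absurd hpS h⟩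
    by_cases hpps : p = ps
    · exact ⟨0, fun _ _ _ h => absurd hpps h⟩
    by_cases hpy : p ≤ y
    swap
    · exact ⟨0, fun _ h => absurd h hpy⟩
    by_cases hpS' : p ∈ S'
    · obtain ⟨r, hr⟩ := avoid (H.image (fun h => t₀ + h)) p (by
        refine lt_of_le_of_lt card_image_le ?_
        rw [hHc]
        obtain ⟨h, hh, h2, h3⟩ := (hS'm p).1 hpS'
        have h4 := hlarge h hh p h2 h3
        have h5 : (k : ℝ) < p := by
          have h6 : (k : ℝ) ≤ K := by
            rw [hKdef]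
            have h5 : (0 : ℝ) ≤ t * k := by positivity
            have h6 : (0 : ℝ) ≤ k := by positivity
            nlinarith
          linarith
        exact_mod_cast h5)
      refine ⟨r, fun _ _ _ _ => ⟨fun h hh => hr _ (mem_image_of_mem _ hh), fun h => absurd hpS' h⟩⟩
    · obtain ⟨h1, h2⟩ := hb1 p hp hpy (by rw [mem_union, not_or]; exact ⟨hpS, hpS'⟩) hpps
      refine ⟨p - b p, fun _ _ _ _ => ⟨?_, ?_⟩⟩
      · intro h hh hd
        obtain ⟨j, rfl⟩ := heS h hh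
        apply h2 j
        have h3 : p - b p + (t₀ + e j) ≡ p - b p + b p [MOD p] := by
          rw [Nat.sub_add_cancel h1.le]
          exact ((Nat.modEq_zero_iff_dvd).2 hd).trans ((Nat.modEq_zero_iff_dvd).2 dvd_rfl).symm
        exact Nat.ModEq.add_left_cancel' _ h3
      · intro _ s hs
        have h3 : p - b p + s ≡ p - b p + b p [MOD p] := Nat.ModEq.add_left _ hs
        rw [Nat.sub_add_cancel h1.le] at h3
        exact (Nat.modEq_zero_iff_dvd).1 (h3.trans ((Nat.modEq_zero_iff_dvd).2 dvd_rfl))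
  choose r hr using hex
  obtain ⟨a0, ha0⟩ := crt y r
  have hdiv : ∀ p : ℕ, p.Prime → p ≤ y → ∀ v : ℕ, p ∣ a0 + v ↔ p ∣ r p + v := by
    intro p hp hpy v
    exact ((ha0 p hp hpy).add_right v).dvd_iff dvd_rfl
  have hmemW : ∀ p : ℕ, p ∈ PW X S ps ↔ p.Prime ∧ p ≤ y ∧ p ∉ S ∧ p ≠ ps := by
    intro p
    unfold PW
    rw [mem_filter, mem_Icc, ← hy]
    constructor
    · rintro ⟨⟨_, h1⟩, h2, h3, h4⟩
      exact ⟨h2, h1, h3, h4⟩
    · rintro ⟨h1, h2, h3, h4⟩
      exact ⟨⟨h1.pos, h2⟩, h1, h3, h4⟩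
  refine ⟨a0 + t₀, ?_, ?_⟩
  · intro h hh
    unfold WW
    rw [Nat.coprime_prod_right_iff]
    intro p hp
    obtain ⟨h1, h2, h3, h4⟩ := (hmemW p).1 hp
    rw [Nat.coprime_comm, Nat.Prime.coprime_iff_not_dvd h1, add_assoc, hdiv p h1 h2]
    exact (hr p h1 h2 h3 h4).1 h hh
  · rw [← hL, ← hT]
    refine le_trans ?_ hUc2
    rw [Nat.cast_le]
    apply card_le_card_of_injOn (fun s => t₀ + s)
    · intro s hs
      rw [mem_coe, mem_filter, mem_range] at hs
      obtain ⟨hs1, hs2, hs3⟩ := hs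
      show t₀ + s ∈ U
      rw [hUdef, mem_filter, mem_range]
      refine ⟨by omega, ?_, ?_⟩
      · intro j hj
        apply hs2
        have : s = e j := by omega
        rw [this]
        exact heH j
      · intro p hp hpy hpS hpps hmod
        rw [mem_union, not_or] at hpS
        have h1 := (hr p hp hpy hpS.1 hpps).2 hpS.2 _ hmod
        rw [← hdiv p hp hpy] at h1
        unfold WW at hs3
        rw [Nat.coprime_prod_right_iff] at hs3
        have h2 := hs3 p ((hmemW p).2 ⟨hp, hpy, hpS.1, hpps⟩)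
        rw [Nat.coprime_comm, Nat.Prime.coprime_iff_not_dvd hp, add_assoc] at h2
        exact h2 h1
    · intro s _ s' _ h
      simp only at h
      omega

end Pool.Agent.Q117.RP
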