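import Pool.Agent.Q117.RP.SieveV2
import Pool.Agent.Q117.RP.CoverR
import Pool.Agent.Q117.GP.Apply

/-!
# Patterns of record diameter among a prime and almost primes, all other integers composite

`growingR`: `f(X) = log X (log₂ X)² log₄ X / (log₃ X)²`; for every admissible set `H` of `k` integers `≤ c f(X)` and every `a ∈ H` there are
at least `X ^ (98/100)` integers `n` with `n + a ∈ (X, 3X]` prime, all `n + h`, `h ∈ H`, without prime factors `≤ X ^ (1/t)`, and all other
`n + s`, `s ≤ c f(X)`, divisible by a prime `≤ X ^ (1/log log X)`.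
-/

set_option autoImplicit false
set_option maxHeartbeats 4000000

namespace Pool.Agent.Q117.RP

open Finset Filter
open Pool.Agent.H378R2
open Pool.Agent.H312R2.RG (BVat)
open Pool.Agent.H256R2.SC (ff)
open Pool.Agent.Q117.GP (Adm bvat')

open Classical in
/-- the integers `n` with `n + a ∈ (X, 3X]` prime, all `n + h`, `h ∈ H`, without prime factors `≤ X ^ (1/t)`, and all other `n + s`,
`s ≤ D`, divisible by a prime `≤ X ^ (1/log log X)` -/
noncomputable def PtsR (t : ℕ) (X D : ℝ) (H : Finset ℕ) (a : ℕ) : Finset ℕ :=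
  (range (⌊3 * X⌋₊ + 1)).filter (fun n : ℕ => X < ((n + a : ℕ) : ℝ) ∧ ((n + a : ℕ) : ℝ) ≤ 3 * X ∧ (n + a).Prime ∧
    (∀ h ∈ H, ∀ p : ℕ, p.Prime → (p : ℝ) ≤ X ^ (1 / (t : ℝ)) → ¬ p ∣ n + h) ∧
    ∀ s : ℕ, (s : ℝ) ≤ D → s ∉ H → ∃ p : ℕ, p.Prime ∧ (p : ℝ) ≤ X ^ (1 / Real.log (Real.log X)) ∧ p ∣ n + s)

lemma ev_main (c c₃ : ℝ) (hc : 0 < c) (hc₃ : 0 < c₃) : ∃ X0 : ℝ, ∀ X : ℝ, X0 ≤ X → c * ff X + 1 ≤ (Real.log X) ^ 2 ∧ 0 ≤ ff X ∧
    c * ff X ≤ X ∧ 1 ≤ c₃ / 2 * Real.log X ∧ Real.log X ≤ X ^ (1 / Real.log (Real.log X)) ∧ 3 ≤ X := by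
  have h1 := Pool.Agent.H312R2.RG.ev_ff (2 * c) (by positivity)
  have hlog := Real.tendsto_log_atTop
  have e4 : ∀ᶠ x : ℝ in atTop, (Real.log x) ^ 2 ≤ x := by
    have h1 := (Real.isLittleO_pow_log_id_atTop (n := 2)).bound (show (0 : ℝ) < 1 by norm_num)
    filter_upwards [h1, eventually_ge_atTop (1 : ℝ)] with x h2 h3
    rw [Real.norm_of_nonneg (by positivity), id, Real.norm_of_nonneg (by linarith)] at h2
    linarith
  have hll : Tendsto (fun X : ℝ => Real.log (Real.log X)) atTop atTop := hlog.comp hlog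
  have hev := (h1.and ((hlog.eventually_ge_atTop 2).and (hlog.eventually_ge_atTop (2 / c₃)))).and
    ((hlog.eventually e4).and ((hll.eventually_gt_atTop 0).and (eventually_ge_atTop (3 : ℝ))))
  obtain ⟨X0, hX0⟩ := eventually_atTop.1 hev
  refine ⟨X0, ?_⟩
  intro X hX
  obtain ⟨⟨⟨a1, a2, a3⟩, a4, a5⟩, a6, a7, a8⟩ := hX0 X hX
  have hX0' : 0 < X := by linarith
  refine ⟨by nlinarith, a2, ?_, ?_, ?_, a8⟩
  · have : 0 ≤ c * ff X := by positivity
    linarith
  · rw [div_le_iff₀ hc₃] at a5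
    linarith
  · have h2 : Real.log X = Real.exp (Real.log (Real.log X)) := by
      rw [Real.exp_log (by linarith)]
    rw [Real.rpow_def_of_pos hX0']
    calc Real.log X = Real.exp (Real.log (Real.log X)) := h2
      _ ≤ Real.exp (Real.log X * (1 / Real.log (Real.log X))) := by
        apply Real.exp_le_exp.2
        rw [mul_one_div, le_div_iff₀ a7]
        nlinarith

/-- **Patterns of record diameter.** -/
theorem growingR (k : ℕ) (hk : 1 ≤ k) : ∃ t : ℕ, 1 ≤ t ∧ ∃ c : ℝ, 0 < c ∧ ∃ X0 : ℝ, ∀ X : ℝ, X0 ≤ X → ∀ H : Finset ℕ, H.card = k →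
    (∀ h ∈ H, (h : ℝ) ≤ c * ff X) → Adm H → ∀ a ∈ H, X ^ (98 / 100 : ℝ) ≤ ((PtsR t X (c * ff X) H a).card : ℝ) := by
  classical
  obtain ⟨t, ht, A', Z, c₃, hZ, hc₃, _, X1, hsieve⟩ := sieveV k
  obtain ⟨c, hc, X2, hcov⟩ := coverR k hk (c₃ / 2) (by positivity)
  obtain ⟨X3, hbv⟩ := bvat' A' Z hZ
  obtain ⟨X4, hX4⟩ := ev_main c c₃ hc hc₃
  have ht0 : (0 : ℝ) < t := by exact_mod_cast ht
  refine ⟨t, ht, c, hc, max (max X1 X2) (max X3 X4), ?_⟩
  intro X hX H hHc hHle hadm a ha
  have g1 : X1 ≤ X := ((le_max_left _ _).trans (le_max_left _ _)).trans hX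
  have g2 : X2 ≤ X := ((le_max_right _ _).trans (le_max_left _ _)).trans hX
  have g3 : X3 ≤ X := ((le_max_left _ _).trans (le_max_right _ _)).trans hX
  have g4 : X4 ≤ X := ((le_max_right _ _).trans (le_max_right _ _)).trans hX
  obtain ⟨f1, f2, f3, f4, f5, g5⟩ := hX4 X g4
  obtain ⟨ps, S, hps, hS, hBV⟩ := hbv X g3
  have hps2 : GoodP 2 ps := by
    rcases hps with h | h
    · exact Or.inl h
    · exact Or.inr ⟨h.1, by omega⟩
  obtain ⟨a1, ha1, hUc⟩ := hcov X g2 ps S hps2 hS H hHc hHle hadm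
  obtain ⟨W, hW⟩ : ∃ W, W = WW X S ps := ⟨_, rfl⟩
  rw [← hW] at ha1 hUc hBV
  have hcD0 : 0 ≤ c * ff X := by positivity
  obtain ⟨D, hD⟩ : ∃ D : ℕ, D = ⌊c * ff X⌋₊ := ⟨_, rfl⟩
  rw [← hD] at hUc
  have hDle : (D : ℝ) ≤ c * ff X := by rw [hD]; exact Nat.floor_le hcD0
  have hHD : ∀ h ∈ H, h ≤ D := fun h hh => by rw [hD]; exact Nat.le_floor (hHle h hh)
  -- the positions
  obtain ⟨e, he⟩ : ∃ e : Fin k → ℕ, e = fun j => H.orderEmbOfFin hHc j := ⟨_, rfl⟩
  have heH : ∀ j, e j ∈ H := fun j => by rw [he]; exact Finset.orderEmbOfFin_mem H hHc j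
  have heS : ∀ h ∈ H, ∃ j, e j = h := by
    intro h hh
    have h1 := Finset.range_orderEmbOfFin H hHc
    have h2 : h ∈ Set.range (H.orderEmbOfFin hHc) := by
      rw [h1]
      exact_mod_cast hh
    obtain ⟨j, hj⟩ := h2
    exact ⟨j, by rw [he]; exact hj⟩
  obtain ⟨i, hi⟩ := heS a ha
  -- the repelled shifts
  obtain ⟨U, hU⟩ : ∃ U, U = insert (D + 1) ((range (D + 1)).filter (fun s => s ∉ H ∧ (a1 + s).Coprime W)) := ⟨_, rfl⟩
  have hUle : ∀ s ∈ U, s ≤ D + 1 := by
    intro s hs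
    rw [hU, mem_insert, mem_filter, mem_range] at hs
    omega
  have hUb : ∀ s ∈ U, (s : ℝ) ≤ (Real.log X) ^ 2 := by
    intro s hs
    have h1 : (s : ℝ) ≤ D + 1 := by exact_mod_cast hUle s hs
    linarith
  have hUcard : (U.card : ℝ) ≤ c₃ * Real.log X := by
    have h1 : U.card ≤ ((range (D + 1)).filter (fun s => s ∉ H ∧ (a1 + s).Coprime W)).card + 1 := by
      rw [hU]
      exact card_insert_le _ _
    have h2 : (U.card : ℝ) ≤ (((range (D + 1)).filter (fun s => s ∉ H ∧ (a1 + s).Coprime W)).card : ℝ) + 1 := by exact_mod_cast h1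
    linarith
  have htU : ∀ j, e j ∉ U := by
    intro j hj
    rw [hU, mem_insert, mem_filter] at hj
    have h1 := hHD _ (heH j)
    rcases hj with hj | hj
    · omega
    · exact hj.2.1 (heH j)
  have h1 := hsieve X g1 ps S hps hS (by rw [← hW]; exact hBV) e U (fun j => by
      have h1 : (e j : ℝ) ≤ c * ff X := hHle _ (heH j)
      linarith) hUb htU ⟨D + 1, by rw [hU]; exact mem_insert_self _ _⟩ hUcard i (a1 + a) (by rw [← hW]; exact ha1 a ha)
  rw [← hW] at h1
  refine h1.trans ?_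
  rw [Nat.cast_le]
  have haX : (a : ℝ) ≤ X := (hHle a ha).trans f3
  apply card_le_card_of_injOn (fun m => m - a)
  · intro m hm
    rw [mem_coe] at hm ⊢
    unfold GPrV at hm
    rw [mem_filter, mem_Icc] at hm
    obtain ⟨⟨_, hm3⟩, hmX, hmp, hmod, hmOm, hmU⟩ := hm
    have ham : a ≤ m := by
      have : (a : ℝ) < m := lt_of_le_of_lt haX hmX
      exact_mod_cast this.le
    have hma : m - a + a = m := Nat.sub_add_cancel ham
    have hnm : m - a ≡ a1 [MOD W] := by
      apply Nat.ModEq.add_right_cancel' a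
      rw [hma]
      exact hmod
    have hcast : ((m - a : ℕ) : ℤ) = (m : ℤ) - a := by
      rw [Nat.cast_sub ham]
    show m - a ∈ PtsR t X (c * ff X) H a
    unfold PtsR
    rw [mem_filter, mem_range, hma]
    refine ⟨by omega, hmX, (Nat.cast_le.2 hm3).trans (Nat.floor_le (by linarith)), hmp, ?_, ?_⟩
    · intro h hh p hp hpX hd
      have hpm : ¬ p ∣ m := by
        intro hd2
        have h2 := (Nat.prime_dvd_prime_iff_eq hp hmp).1 hd2
        have h3 : X ^ (1 / (t : ℝ)) ≤ X := by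
          calc X ^ (1 / (t : ℝ)) ≤ X ^ (1 : ℝ) := by
                apply Real.rpow_le_rpow_of_exponent_le (by linarith)
                rw [div_le_one ht0]
                exact_mod_cast ht
            _ = X := Real.rpow_one X
        rw [h2] at hpX
        linarith
      by_cases hpW : p ∣ W
      · have h2 : p ∣ a1 + h := by
          have h3 : m - a + h ≡ a1 + h [MOD p] := (hnm.of_dvd hpW).add_right h
          exact (h3.dvd_iff dvd_rfl).1 hd
        have h4 := ha1 h hh
        have h5 := Nat.dvd_gcd h2 hpW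
        rw [Nat.Coprime] at h4
        rw [h4] at h5
        exact hp.one_lt.ne' (Nat.dvd_one.1 h5)
      · obtain ⟨j, rfl⟩ := heS h hh
        by_cases hij : j = i
        · rw [hij, hi, hma] at hd
          exact hpm hd
        · apply hmOm p hp hpW hpX
          apply not_OmT hp hpm hij
          have h2 : (m : ℤ) + e j - e i = ((m - a + e j : ℕ) : ℤ) := by
            rw [Nat.cast_add, hcast, hi]
            ring
          rw [h2]
          exact_mod_cast hd
    · intro s hs hsH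
      have hsD : s ≤ D := by rw [hD]; exact Nat.le_floor hs
      by_cases hcop : (a1 + s).Coprime W
      · obtain ⟨p, hp, hp1, hp2⟩ := hmU s (by
          rw [hU, mem_insert, mem_filter, mem_range]
          exact Or.inr ⟨by omega, hsH, hcop⟩)
        refine ⟨p, hp, hp1, ?_⟩
        have h2 : (m : ℤ) - e i + s = ((m - a + s : ℕ) : ℤ) := by
          rw [Nat.cast_add, hcast, hi]
        rw [h2] at hp2
        exact_mod_cast hp2
      · obtain ⟨p, hp, hp1, hp2⟩ := Nat.Prime.not_coprime_iff_dvd.1 hcop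
        refine ⟨p, hp, ?_, ?_⟩
        · refine le_trans ?_ f5
          rw [hW] at hp2
          unfold WW at hp2
          rw [hp.prime.dvd_finsetProd_iff] at hp2
          obtain ⟨q, hq, hd⟩ := hp2
          unfold PW at hq
          rw [mem_filter, mem_Icc] at hq
          have h3 := (Nat.prime_dvd_prime_iff_eq hp hq.2.1).1 hd
          rw [h3]
          have h4 : (q : ℝ) ≤ yy X := by exact_mod_cast hq.1.2
          have h5 : (yy X : ℝ) ≤ Real.log X / 1000 := Nat.floor_le (by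
            have := Real.log_nonneg (show (1 : ℝ) ≤ X by linarith)
            positivity)
          have h6 := Real.log_nonneg (show (1 : ℝ) ≤ X by linarith)
          linarith
        · have h3 : m - a + s ≡ a1 + s [MOD p] := (hnm.of_dvd hp2).add_right s
          exact (h3.dvd_iff dvd_rfl).2 hp1
  · intro m hm m' hm' he'
    rw [mem_coe] at hm hm'
    unfold GPrV at hm hm'
    rw [mem_filter] at hm hm'
    have h2 : a ≤ m := by
      have : (a : ℝ) < m := lt_of_le_of_lt haX hm.2.1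
      exact_mod_cast this.le
    have h3 : a ≤ m' := by
      have : (a : ℝ) < m' := lt_of_le_of_lt haX hm'.2.1
      exact_mod_cast this.le
    simp only at he'
    omega

end Pool.Agent.Q117.RP
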