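import Pool.Agent.Q117.RP.WV
import Pool.Agent.Q117.GP.SieveC

/-!
# The fundamental lemma with the repelling weights
-/

set_option autoImplicit false
set_option maxHeartbeats 4000000

namespace Pool.Agent.Q117.RP

open Finset Filter
open Pool.Agent.H378R2
open Pool.Agent.TH423.SH Pool.Agent.TH423.SH.FLIP
open Pool.Agent.H378R2.LSBV (QQ mem_QQ)
open Pool.Agent.H312R2.RG (ClassB tot)
open Pool.Agent.Q117.GP (wt wt_nonneg two_pow_le totient_prod coprime_prod' SPr Cl OmS mem_SPr prod_inj)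

/-- the forbidden classes: `c ≠ 0` with `c + t j ≡ t i` for some `j ≠ i` -/
def OmT {K : ℕ} (t : Fin K → ℕ) (i : Fin K) (p : ℕ) : Finset ℕ :=
  ((univ.erase i).image (fun j => (t i + t j * (p - 1)) % p)).filter (fun c => c ≠ 0)

lemma OmT_sys {K : ℕ} (t : Fin K → ℕ) (i : Fin K) : OmS K (OmT t i) where
  card := by
    intro p _
    unfold OmT
    refine (card_filter_le _ _).trans (card_image_le.trans ?_)
    have h1 := card_le_card (erase_subset i (univ : Finset (Fin K)))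
    rwa [Finset.card_univ, Fintype.card_fin] at h1
  zero := by
    intro p _ h
    unfold OmT at h
    rw [mem_filter] at h
    exact h.2 rfl
  lt := by
    intro p hp c hc
    unfold OmT at hc
    rw [mem_filter, mem_image] at hc
    obtain ⟨⟨h, _, rfl⟩, _⟩ := hc
    exact Nat.mod_lt _ hp.pos

/-- members of the forbidden classes -/
lemma OmT_dvd {K : ℕ} {t : Fin K → ℕ} {i : Fin K} {p c b : ℕ} (hp : p.Prime) (hc : c ∈ OmT t i p) (hb : b % p = c) :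
    ∃ j, j ≠ i ∧ (p : ℤ) ∣ (b : ℤ) + t j - t i := by
  unfold OmT at hc
  rw [mem_filter, mem_image] at hc
  obtain ⟨⟨j, hj, hjc⟩, _⟩ := hc
  rw [mem_erase] at hj
  refine ⟨j, hj.1, ?_⟩
  have h1 : b ≡ t i + t j * (p - 1) [MOD p] := by
    unfold Nat.ModEq
    rw [hb, hjc]
  have h2 : (p : ℤ) ∣ ((t i + t j * (p - 1) : ℕ) : ℤ) - (b : ℤ) := (Nat.modEq_iff_dvd).1 h1
  have h3 : (((t i + t j * (p - 1) : ℕ)) : ℤ) = (t i : ℤ) + t j * ((p : ℤ) - 1) := by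
    have := hp.one_le
    push_cast [this]
    ring
  rw [h3] at h2
  have h4 : (b : ℤ) + t j - t i = (p : ℤ) * t j - ((t i : ℤ) + t j * ((p : ℤ) - 1) - b) := by ring
  rw [h4]
  exact dvd_sub (dvd_mul_right _ _) h2

/-- a number outside the forbidden classes and the class `0` -/
lemma not_OmT {K : ℕ} {t : Fin K → ℕ} {i j : Fin K} {p n : ℕ} (hp : p.Prime) (hpn : ¬ p ∣ n) (hij : j ≠ i)
    (hd : (p : ℤ) ∣ (n : ℤ) + t j - t i) : n % p ∈ OmT t i p := by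
  unfold OmT
  rw [mem_filter, mem_image]
  refine ⟨⟨j, mem_erase.2 ⟨hij, mem_univ _⟩, ?_⟩, ?_⟩
  · have h3 : (((t i + t j * (p - 1) : ℕ)) : ℤ) = (t i : ℤ) + t j * ((p : ℤ) - 1) := by
      have := hp.one_le
      push_cast [this]
      ring
    have h1 : t i + t j * (p - 1) ≡ n [MOD p] := by
      rw [Nat.modEq_iff_dvd, h3]
      have h4 : (n : ℤ) - ((t i : ℤ) + t j * ((p : ℤ) - 1)) = ((n : ℤ) + t j - t i) - (p : ℤ) * t j := by ring
      rw [h4]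
      exact dvd_sub hd (dvd_mul_right _ _)
    exact h1
  · intro h0
    exact hpn (Nat.dvd_of_mod_eq_zero h0)

lemma prime_prod_mem {T : Finset ℕ} (hT : ∀ p ∈ T, p.Prime) {p : ℕ} (hp : p.Prime) (hd : p ∣ ∏ q ∈ T, q) : p ∈ T := by
  rw [hp.prime.dvd_finsetProd_iff] at hd
  obtain ⟨q, hq, hd⟩ := hd
  have := (Nat.prime_dvd_prime_iff_eq hp (hT q hq)).1 hd
  rwa [this]

/-- products of sieving primes are moduli of the class sums -/
lemma prod_mem_QQ {W ps Y : ℕ} {X : ℝ} (hX : 0 < X) (hps : ps = 1 ∨ ps.Prime) (hY : (Y : ℝ) ≤ X ^ (1 / 100 : ℝ)) {T : Finset ℕ}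
    (hT : ∀ p ∈ T, p.Prime ∧ ¬ p ∣ W ∧ p ≠ ps) (hTY : ∏ p ∈ T, p ≤ Y) : ∏ p ∈ T, p ∈ QQ W ps ⌊Real.exp (2 * LL X)⌋₊ := by
  rw [mem_QQ]
  refine ⟨⟨prod_pos fun p hp => (hT p hp).1.pos, ?_⟩, ?_, ?_⟩
  · apply Nat.le_floor
    rw [exp_two_LL X hX]
    refine le_trans ?_ hY
    exact_mod_cast hTY
  · refine Finset.squarefree_prod_of_pairwise_isCoprime ?_ ?_
    · intro p hp q hq hpq
      exact Nat.coprime_iff_isRelPrime.1 ((Nat.coprime_primes (hT p hp).1 (hT q hq).1).2 hpq)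
    · intro p hp
      exact (hT p hp).1.prime.squarefree
  · rw [Nat.coprime_comm]
    apply coprime_prod'
    intro p hp
    refine ⟨(hT p hp).1, ?_⟩
    intro hd
    have h2 := hT p hp
    rcases (h2.1.dvd_mul).1 hd with h3 | h3
    · exact h2.2.1 h3
    · rcases hps with h4 | h4
      · rw [h4] at h3
        exact h2.1.one_lt.ne' (Nat.dvd_one.1 h3)
      · exact h2.2.2 ((Nat.prime_dvd_prime_iff_eq h2.1 h4).1 h3)

/-- the error sum -/
lemma err_tot (κ K : ℕ) (hκ : κ ≤ 2 ^ (2 * K)) (X : ℝ) (hX : 0 < X) (W ps Y : ℕ) (hps : ps = 1 ∨ ps.Prime)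
    (hY : (Y : ℝ) ≤ X ^ (1 / 100 : ℝ)) (e : ℕ → ℝ) (he : ∀ q, 0 ≤ e q) (P : Finset ℕ) (hP : ∀ p ∈ P, p.Prime ∧ ¬ p ∣ W ∧ p ≠ ps) :
    ∑ T ∈ P.powerset.filter (fun T : Finset ℕ => ∏ p ∈ T, p ≤ Y), (κ : ℝ) ^ T.card * e (∏ p ∈ T, p) ≤ tot K X W ps e := by
  classical
  obtain ⟨F, hF⟩ : ∃ F, F = P.powerset.filter (fun T : Finset ℕ => ∏ p ∈ T, p ≤ Y) := ⟨_, rfl⟩
  rw [← hF]
  have hFP : ∀ T ∈ F, T ⊆ P ∧ ∏ p ∈ T, p ≤ Y := by
    intro T hT
    rw [hF, mem_filter, mem_powerset] at hT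
    exact hT
  have hTp : ∀ T ∈ F, ∀ p ∈ T, p.Prime := fun T hT p hp => (hP p ((hFP T hT).1 hp)).1
  unfold tot
  calc ∑ T ∈ F, (κ : ℝ) ^ T.card * e (∏ p ∈ T, p)
      ≤ ∑ T ∈ F, ((((∏ p ∈ T, p : ℕ).divisors.card : ℝ)) ^ (2 * K) * e (∏ p ∈ T, p)) := by
        apply sum_le_sum
        intro T hT
        apply mul_le_mul_of_nonneg_right _ (he _)
        have h0 : ∏ p ∈ T, p ≠ 0 := (prod_pos fun p hp => (hTp T hT p hp).pos).ne'
        have h1 := two_pow_le _ h0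
        rw [Nat.primeFactors_prod (hTp T hT)] at h1
        have h2 : (κ : ℝ) ≤ 2 ^ (2 * K) := by exact_mod_cast hκ
        calc (κ : ℝ) ^ T.card ≤ (2 ^ (2 * K)) ^ T.card := by gcongr
          _ = (2 ^ T.card) ^ (2 * K) := by rw [← pow_mul, ← pow_mul, mul_comm]
          _ ≤ _ := by
            gcongr
            exact_mod_cast h1
    _ = ∑ q ∈ F.image (fun T => ∏ p ∈ T, p), ((q.divisors.card : ℝ) ^ (2 * K) * e q) := by
        rw [sum_image]
        intro T hT T' hT' h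
        exact prod_inj (hTp T hT) (hTp T' hT') h
    _ ≤ _ := by
        apply sum_le_sum_of_subset_of_nonneg
        · intro q hq
          rw [mem_image] at hq
          obtain ⟨T, hT, rfl⟩ := hq
          exact prod_mem_QQ hX hps hY (fun p hp => hP p ((hFP T hT).1 hp)) (hFP T hT).2
        · intro q _ _
          exact mul_nonneg (by positivity) (he q)

/-- the main sum with the weights -/
theorem main_sumV : ∃ C0 : ℕ, 1 ≤ C0 ∧ ∀ K b J z0 : ℕ, C0 * (K + 1) ≤ b → C0 * (K + 1) ≤ z0 →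
    ∀ X : ℝ, 1 ≤ X → (((2 ^ 2 ^ J) ^ (C0 * b) : ℕ) : ℝ) ≤ X ^ (1 / 100 : ℝ) → 0 ≤ LPhi X →
    ∀ W ps b0 : ℕ, 0 < W → (ps = 1 ∨ ps.Prime) → b0.Coprime W → ∀ (t : Fin K → ℕ) (i : Fin K) (V : ℤ → ℝ) (M' : ℝ) (e : ℕ → ℝ),
    (∀ a, 0 ≤ V a) → 0 ≤ M' → (∀ q, 0 ≤ e q) → ClassB X W ps t i V M' e →
    |∑ n ∈ (Cl X W b0).filter (fun n => ∀ p ∈ SPr z0 J W ps, n % p ∉ OmT t i p), wt X n * V ((n : ℤ) - t i) -
      M' * (LPhi X / W.totient) * ∏ p ∈ SPr z0 J W ps, (1 - ((OmT t i p).card : ℝ) * (1 / ((p : ℝ) - 1)))| ≤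
      (1 / 2 : ℝ) ^ b * (M' * (LPhi X / W.totient) * ∏ p ∈ SPr z0 J W ps, (1 - ((OmT t i p).card : ℝ) * (1 / ((p : ℝ) - 1)))) +
      ((J : ℝ) + 2) * tot K X W ps e := by
  classical
  obtain ⟨C0, hC0, hF⟩ := fll
  refine ⟨C0, hC0, ?_⟩
  intro K b J z0 hb hz X hX hY hL W ps b0 hW hps hb0 t i V M' e hV hM' he hcl
  have hOm := OmT_sys t i
  have h1 := hF K b J z0 (SPr z0 J W ps) (fun p => 1 / ((p : ℝ) - 1)) (OmT t i) hb hz
    (fun p hp => ⟨(mem_SPr.1 hp).2.1, (mem_SPr.1 hp).1.1, (mem_SPr.1 hp).1.2⟩)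
    (fun p hp => hOm.card p (mem_SPr.1 hp).2.1)
    (by
      intro p hp
      have hp2 : (2 : ℝ) ≤ p := by exact_mod_cast (mem_SPr.1 hp).2.1.two_le
      exact ⟨one_div_nonneg.2 (by linarith), le_rfl⟩)
    (Cl X W b0) (fun n => wt X n * V ((n : ℤ) - t i)) (M' * (LPhi X / W.totient)) e
    (fun n _ => mul_nonneg (wt_nonneg X n) (hV _)) (mul_nonneg hM' (by positivity)) he
    (by
      intro T hT hTY c hc
      have hTp : ∀ p ∈ T, p.Prime ∧ ¬ p ∣ W := fun p hp => ⟨(mem_SPr.1 (hT hp)).2.1, (mem_SPr.1 (hT hp)).2.2.1⟩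
      have hTps : ∀ p ∈ T, p.Prime ∧ ¬ p ∣ W ∧ p ≠ ps := fun p hp => (mem_SPr.1 (hT hp)).2
      obtain ⟨v, hv⟩ := crt_set W b0 c T hTp (fun p hp => hOm.lt p (hTp p hp).1 _ (hc p hp))
      have hvv := (hv v).2 rfl
      have hq := prod_mem_QQ (lt_of_lt_of_le one_pos hX) hps hY hTps hTY
      have hcv := hcl (∏ p ∈ T, p) v hq (by
        apply Nat.Coprime.mul_right
        · have h2 : v ≡ b0 [MOD W] := hvv.1
          unfold Nat.Coprime at hb0 ⊢
          rw [h2.gcd_eq]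
          exact hb0
        · rw [Nat.coprime_prod_right_iff]
          intro p hp
          rw [Nat.coprime_comm, Nat.Prime.coprime_iff_not_dvd (hTp p hp).1]
          intro hd
          have h3 := hvv.2 p hp
          rw [Nat.mod_eq_zero_of_dvd hd] at h3
          exact hOm.zero p (hTp p hp).1 (h3 ▸ hc p hp)) (by
        intro p hp hpd
        have hpT := prime_prod_mem (fun q hq => (hTp q hq).1) hp hpd
        exact OmT_dvd hp (hc p hpT) (hvv.2 p hpT))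
      unfold Cl
      rw [filter_filter]
      have e1 : (Icc 1 ⌊3 * X⌋₊).filter (fun n => n ≡ b0 [MOD W] ∧ ∀ p ∈ T, n % p = c p) =
          (Icc 1 ⌊3 * X⌋₊).filter (fun n => n ≡ v [MOD W * ∏ p ∈ T, p]) :=
        filter_congr fun n _ => hv n
      rw [e1]
      unfold Pool.Agent.Q117.GP.wt
      refine le_trans (le_of_eq ?_) hcv
      congr 1
      rw [totient_prod T (fun p hp => (hTp p hp).1)]
      have e2 : ∏ p ∈ T, (1 / ((p : ℝ) - 1)) = 1 / ∏ p ∈ T, ((p : ℝ) - 1) := by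
        rw [prod_div_distrib, prod_const_one]
      rw [e2]
      ring)
  refine h1.trans ?_
  gcongr
  exact err_tot K K (by
    have h2 : K < 2 ^ K := Nat.lt_two_pow_self
    have h3 : 2 ^ K ≤ 2 ^ (2 * K) := Nat.pow_le_pow_right (by norm_num) (by omega)
    omega) X (by linarith) W ps _ hps hY e he (SPr z0 J W ps) (fun p hp => (mem_SPr.1 hp).2)

/-- the sum over a class modulo `m`, all elements of the pattern free of the sieving primes -/
theorem upper_sumV : ∃ C0 : ℕ, 1 ≤ C0 ∧ ∀ K b J z0 : ℕ, C0 * (K + 2) ≤ b → C0 * (K + 2) ≤ z0 →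
    ∀ X : ℝ, 1 ≤ X → (((2 ^ 2 ^ J) ^ (C0 * b) : ℕ) : ℝ) ≤ X ^ (1 / 100 : ℝ) →
    ∀ W ps m b0 : ℕ, 0 < W → (ps = 1 ∨ ps.Prime) → (m = 1 ∨ (m = ps ∧ ps.Prime)) → ∀ (t : Fin K → ℕ) (i : Fin K) (V : ℤ → ℝ) (M : ℝ) (e : ℕ → ℝ),
    (∀ a, 0 ≤ V a) → 0 ≤ M → (∀ q, 0 ≤ e q) → ClassC X W ps m t i V M e →
    ∑ n ∈ ((Icc 1 ⌊3 * X⌋₊).filter (fun n => n % (W * m) = b0 % (W * m))).filter (fun n => ∀ p ∈ SPr z0 J W ps, n % p ∉ insert 0 (OmT t i p)),
        Phi (n / X) * V ((n : ℤ) - t i) ≤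
      (1 + (1 / 2 : ℝ) ^ b) * (M * (MPhi X * (1 / (W : ℝ))) * (1 / (m : ℝ)) *
        ∏ p ∈ SPr z0 J W ps, (1 - (((OmT t i p).card : ℝ) + 1) / (p : ℝ))) +
      ((J : ℝ) + 2) * tot K X W ps e := by
  classical
  obtain ⟨C0, hC0, hF⟩ := fll
  refine ⟨C0, hC0, ?_⟩
  intro K b J z0 hb hz X hX hY W ps m b0 hW hps hm t i V M e hV hM he hcl
  have hOm := OmT_sys t i
  have hMP : 0 ≤ MPhi X := by
    unfold MPhi
    exact Finset.sum_nonneg fun n _ => Phi_nonneg _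
  have hcard : ∀ p : ℕ, p.Prime → (insert 0 (OmT t i p)).card = (OmT t i p).card + 1 := fun p hp =>
    card_insert_of_notMem (hOm.zero p hp)
  have hm1 : 1 ≤ m := by
    rcases hm with h | ⟨h, h2⟩
    · omega
    · rw [h]; exact h2.pos
  have hndm : ∀ p ∈ SPr z0 J W ps, ¬ p ∣ W * m := by
    intro p hp hd
    obtain ⟨_, h2, h3, h4⟩ := mem_SPr.1 hp
    rcases (h2.dvd_mul).1 hd with h5 | h5
    · exact h3 h5
    · rcases hm with h | ⟨h, h6⟩
      · rw [h] at h5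
        exact h2.one_lt.ne' (Nat.dvd_one.1 h5)
      · rw [h] at h5
        exact h4 ((Nat.prime_dvd_prime_iff_eq h2 h6).1 h5)
  have h1 := hF (K + 1) b J z0 (SPr z0 J W ps) (fun p => 1 / (p : ℝ)) (fun p => insert 0 (OmT t i p)) hb hz
    (fun p hp => ⟨(mem_SPr.1 hp).2.1, (mem_SPr.1 hp).1.1, (mem_SPr.1 hp).1.2⟩)
    (fun p hp => by
      rw [hcard p (mem_SPr.1 hp).2.1]
      exact Nat.succ_le_succ (hOm.card p (mem_SPr.1 hp).2.1))
    (by
      intro p hp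
      have hp2 : (2 : ℝ) ≤ p := by exact_mod_cast (mem_SPr.1 hp).2.1.two_le
      refine ⟨by positivity, ?_⟩
      apply one_div_le_one_div_of_le (by linarith)
      linarith)
    ((Icc 1 ⌊3 * X⌋₊).filter (fun n => n % (W * m) = b0 % (W * m))) (fun n => Phi (n / X) * V ((n : ℤ) - t i))
    (M * (MPhi X * (1 / (W : ℝ))) * (1 / (m : ℝ))) e
    (fun n _ => mul_nonneg (Phi_nonneg _) (hV _)) (by positivity) he
    (by
      intro T hT hTY c hc
      have hTp : ∀ p ∈ T, p.Prime ∧ ¬ p ∣ W * m := fun p hp => ⟨(mem_SPr.1 (hT hp)).2.1, hndm p (hT hp)⟩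
      have hTps : ∀ p ∈ T, p.Prime ∧ ¬ p ∣ W ∧ p ≠ ps := fun p hp => (mem_SPr.1 (hT hp)).2
      obtain ⟨v, hv⟩ := crt_set (W * m) b0 c T hTp (fun p hp => by
        have h3 := hc p hp
        rw [mem_insert] at h3
        rcases h3 with h3 | h3
        · rw [h3]; exact (hTp p hp).1.pos
        · exact hOm.lt p (hTp p hp).1 _ h3)
      have hvv := (hv v).2 rfl
      have hq := prod_mem_QQ (lt_of_lt_of_le one_pos hX) hps hY hTps hTY
      have hcv := hcl (∏ p ∈ T, p) v hq (by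
        intro p hp hpd
        have hpT := prime_prod_mem (fun q hq => (hTp q hq).1) hp hpd
        have h3 := hc p hpT
        rw [mem_insert] at h3
        rcases h3 with h3 | h3
        · refine ⟨i, ?_⟩
          have h4 := hvv.2 p hpT
          rw [h3] at h4
          have h5 : (p : ℤ) ∣ (v : ℤ) := by exact_mod_cast Nat.dvd_of_mod_eq_zero h4
          have h6 : (v : ℤ) + t i - t i = v := by ring
          rw [h6]
          exact h5
        · obtain ⟨j, _, hj⟩ := OmT_dvd hp h3 (hvv.2 p hpT)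
          exact ⟨j, hj⟩)
      rw [filter_filter]
      have e1 : (Icc 1 ⌊3 * X⌋₊).filter (fun n => n % (W * m) = b0 % (W * m) ∧ ∀ p ∈ T, n % p = c p) =
          (Icc 1 ⌊3 * X⌋₊).filter (fun n => n ≡ v [MOD W * m * ∏ p ∈ T, p]) :=
        filter_congr fun n _ => hv n
      rw [e1]
      refine le_trans (le_of_eq ?_) hcv
      congr 1
      push_cast
      have e2 : ∏ p ∈ T, (1 / (p : ℝ)) = 1 / ∏ p ∈ T, (p : ℝ) := by
        rw [prod_div_distrib, prod_const_one]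
      rw [e2])
  have e3 : ∏ p ∈ SPr z0 J W ps, (1 - (((insert 0 (OmT t i p)).card : ℕ) : ℝ) * (1 / (p : ℝ))) =
      ∏ p ∈ SPr z0 J W ps, (1 - (((OmT t i p).card : ℝ) + 1) / (p : ℝ)) := by
    apply prod_congr rfl
    intro p hp
    rw [hcard p (mem_SPr.1 hp).2.1]
    push_cast
    ring
  rw [e3] at h1
  have h2 := (abs_le.1 h1).2
  have h3 := err_tot (K + 1) K (by
    have h2 : K < 2 ^ K := Nat.lt_two_pow_self
    have h3 : 2 ^ K ≤ 2 ^ (2 * K) := Nat.pow_le_pow_right (by norm_num) (by omega)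
    omega) X (by linarith) W ps _ hps hY e he (SPr z0 J W ps) (fun p hp => (mem_SPr.1 hp).2)
  have h4 : ((J : ℝ) + 2) * ∑ T ∈ (SPr z0 J W ps).powerset.filter (fun T : Finset ℕ => ∏ p ∈ T, p ≤ (2 ^ 2 ^ J) ^ (C0 * b)),
      ((K + 1 : ℕ) : ℝ) ^ T.card * e (∏ p ∈ T, p) ≤ ((J : ℝ) + 2) * tot K X W ps e := by
    apply mul_le_mul_of_nonneg_left h3 (by positivity)
  linarith

end Pool.Agent.Q117.RP
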