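import Pool.Agent.Q117.RP.SieveV1
import Pool.Agent.Q117.GP.SieveD

/-!
# Primes with the pattern free of small primes and a set of repelled shifts
-/

set_option autoImplicit false
set_option maxHeartbeats 4000000

namespace Pool.Agent.Q117.RP

open Finset Filter
open Pool.Agent.H378R2
open Pool.Agent.H318R2.Cr (V Pz mem_Pz V_pos cz_bounds)
open Pool.Agent.Q253.Thin (SysZ VZ_low scale)
open Pool.Agent.H378R2.LSBV (QQ mem_QQ)
open Pool.Agent.H312R2.RG (BVat ClassB tot)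
open Pool.Agent.Q117.GP (wt_nonneg SPr Cl OmS mem_SPr V2_low one_sub_pos' one_sub_le' phi_prod totient_div factor_split)

/-- the eventual inequalities, `u = X ^ (1/1000)` -/
theorem ev_uV (K : ℕ) (cV : ℝ) (hcV : 0 < cV) (N0 : ℕ) : ∃ X0 : ℝ, ∀ X : ℝ, X0 ≤ X → ∃ u : ℝ, 2 ≤ u ∧ X = u ^ 1000 ∧
    (∀ k : ℕ, X ^ ((k : ℝ) / 1000) = u ^ k) ∧ 10 ≤ Real.log X ∧ Real.log (3 * X) ≤ 2 * Real.log X ∧ Real.log (3 * X) ≤ u ∧
    200 / cV * (Real.log X) ^ (K + 1) ≤ u ∧ 100000 / cV ≤ (Real.log X) ^ 2 ∧ K * 100000 / cV ≤ Real.log X ∧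
    (N0 : ℝ) ≤ Real.log (Real.log X) ∧ Real.log (Real.log X) ≤ Real.log X / 1000 := by
  obtain ⟨X0, h0⟩ := Pool.Agent.Q117.GP.ev_u K cV hcV N0
  have hlog := Real.tendsto_log_atTop
  have e3 : ∀ᶠ X : ℝ in atTop, 100000 / cV ≤ (Real.log X) ^ 2 ∧ K * 100000 / cV ≤ Real.log X := by
    filter_upwards [hlog.eventually_ge_atTop (100000 / cV), hlog.eventually_ge_atTop 1, hlog.eventually_ge_atTop (K * 100000 / cV)]
      with X h1 h2 h3
    exact ⟨by nlinarith, h3⟩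
  obtain ⟨X1, h1⟩ := eventually_atTop.1 e3
  refine ⟨max X0 X1, ?_⟩
  intro X hX
  obtain ⟨u, a1, a2, a3, a4, a5, a6, a7, a8, a9, a10, a11⟩ := h0 X ((le_max_left _ _).trans hX)
  obtain ⟨b1, b2⟩ := h1 X ((le_max_right _ _).trans hX)
  exact ⟨u, a1, a2, a3, a4, a5, a6, a7, b1, b2, a10, a11⟩

lemma sum_biUnion_le' (I : Finset ℕ) (Q : ℕ → Finset ℕ) (f : ℕ → ℝ) (hf : ∀ n, 0 ≤ f n) :
    ∑ n ∈ I.biUnion Q, f n ≤ ∑ c ∈ I, ∑ n ∈ Q c, f n := by
  classical
  induction I using Finset.induction_on with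
  | empty => simp
  | insert a I ha ih =>
    rw [biUnion_insert, sum_insert ha]
    have h1 := sum_union_inter (s₁ := Q a) (s₂ := I.biUnion Q) (f := f)
    have h2 : 0 ≤ ∑ n ∈ Q a ∩ I.biUnion Q, f n := sum_nonneg fun n _ => hf n
    linarith

open Classical in
/-- the primes `n ≡ b₀ (mod W)` of `(X, 3 X]` with `n mod p ∉ OmT t i p` for all primes `p ≤ X ^ (1/tt)` that do not divide `W`, for which
every `n - t i + k`, `k ∈ U`, has a prime factor `≤ X ^ (1/log log X)` -/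
noncomputable def GPrV {K : ℕ} (tt : ℕ) (X : ℝ) (W b0 : ℕ) (t : Fin K → ℕ) (i : Fin K) (U : Finset ℕ) : Finset ℕ :=
  (Icc 1 ⌊3 * X⌋₊).filter (fun n : ℕ => X < (n : ℝ) ∧ n.Prime ∧ n ≡ b0 [MOD W] ∧
    (∀ p : ℕ, p.Prime → ¬ p ∣ W → (p : ℝ) ≤ X ^ (1 / (tt : ℝ)) → n % p ∉ OmT t i p) ∧
    ∀ k ∈ U, ∃ p : ℕ, p.Prime ∧ (p : ℝ) ≤ X ^ (1 / Real.log (Real.log X)) ∧ (p : ℤ) ∣ (n : ℤ) - t i + k)

/-- **Primes with the pattern free of small primes and a set of repelled shifts.** -/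
theorem sieveV (K : ℕ) : ∃ tt : ℕ, 1 ≤ tt ∧ ∃ (A' Z : ℕ) (c₃ : ℝ), 2 ≤ Z ∧ 0 < c₃ ∧ c₃ ≤ 1 ∧ ∃ X0 : ℝ, ∀ X : ℝ, X0 ≤ X →
    ∀ (ps : ℕ) (S : Finset ℕ), GoodP Z ps → GoodS X S → BVat A' X (WW X S ps) ps →
    ∀ (t : Fin K → ℕ) (U : Finset ℕ), (∀ j, (t j : ℝ) ≤ (Real.log X) ^ 2) → (∀ k ∈ U, (k : ℝ) ≤ (Real.log X) ^ 2) →
      (∀ j, t j ∉ U) → U.Nonempty → (U.card : ℝ) ≤ c₃ * Real.log X →
    ∀ i : Fin K, ∀ b0 : ℕ, b0.Coprime (WW X S ps) →
    X ^ (98 / 100 : ℝ) ≤ ((GPrV tt X (WW X S ps) b0 t i U).card : ℝ) := by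
  classical
  obtain ⟨C0, hC0, hmain⟩ := main_sumV
  obtain ⟨C1, hC1, hupp⟩ := upper_sumV
  obtain ⟨c₁, c₂, hc₁, hc₁₂, hVb⟩ := cz_bounds
  have hc₂ : 0 < c₂ := hc₁.trans_le hc₁₂
  obtain ⟨cV, hcV, hV2⟩ := V2_low K
  obtain ⟨b, hb⟩ : ∃ b : ℕ, b = (C0 + C1) * (K + 2) + 3 := ⟨_, rfl⟩
  have hbC0 : C0 * (K + 1) ≤ b := by
    rw [hb]
    nlinarith
  have hbC1 : C1 * (K + 2) ≤ b := by
    rw [hb]
    nlinarith
  have hbK : K + 1 ≤ b := by
    rw [hb]
    nlinarith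
  have hb3 : 3 ≤ b := by
    rw [hb]
    omega
  obtain ⟨E, hE⟩ : ∃ E : ℕ, E = 100 * (C0 + C1) * b := ⟨_, rfl⟩
  have hE1 : 1 ≤ E := by
    rw [hE]
    have : 0 < 100 * (C0 + C1) * b := by positivity
    omega
  obtain ⟨Z, hZ⟩ : ∃ Z : ℕ, Z = b + ⌈57600 * (K : ℝ) * E * c₂⌉₊ := ⟨_, rfl⟩
  obtain ⟨A', c₃, hc₃, hc₃1, hwei⟩ := weightsV K (K + 4)
  obtain ⟨X3, hX3⟩ := eventually_atTop.1 (hwei Z)
  obtain ⟨X0, hev⟩ := ev_uV K cV hcV (Z + 2)
  obtain ⟨X1, hX1⟩ := eventually_atTop.1 LPhi_ge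
  have hpowE : ∀ᶠ X : ℝ in atTop, (2 : ℝ) ^ E ≤ X / 2 := by
    filter_upwards [eventually_ge_atTop (2 * (2 : ℝ) ^ E)] with X hX
    linarith
  obtain ⟨X2, hX2⟩ := eventually_atTop.1 hpowE
  refine ⟨2 * E, by omega, A', Z, c₃, by omega, hc₃, hc₃1, max (max X0 X3) (max X1 X2), ?_⟩
  intro X hX ps S hps hS hBV t U ht hU htU hUne hUc i b0 hb0
  have g0 : X0 ≤ X := ((le_max_left _ _).trans (le_max_left _ _)).trans hX
  have g3 : X3 ≤ X := ((le_max_right _ _).trans (le_max_left _ _)).trans hX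
  have g1 : X1 ≤ X := ((le_max_left _ _).trans (le_max_right _ _)).trans hX
  have g2 : X2 ≤ X := ((le_max_right _ _).trans (le_max_right _ _)).trans hX
  obtain ⟨u, hu2, hXu, huk, hl10, hl3, hl3u, hcu, hc2l, hcKl, hN0, hll⟩ := hev X g0
  have hLP := hX1 X g1
  have hE2 := hX2 X g2
  obtain ⟨Vw, Tw, Z₁, M, M', M₂, e₁, e₂, e₃, w1, w2, w3, w4, w5, w6, w7, w8, w9, w10, w11, w12, w13, w14, w15, w16⟩ :=
    hX3 X g3 ps S hps hS hBV t U ht hU htU hUne hUc
  have hOm := OmT_sys t i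
  obtain ⟨Om, hOmd⟩ : ∃ Om, Om = OmT t i := ⟨_, rfl⟩
  rw [← hOmd] at hOm
  have hXp : 0 < X := by rw [hXu]; positivity
  have hX1' : 1 ≤ X := by
    rw [hXu]
    exact one_le_pow₀ (by linarith)
  have hlX : 0 < Real.log X := by linarith
  obtain ⟨W, hW⟩ : ∃ W, W = WW X S ps := ⟨_, rfl⟩
  rw [← hW] at hBV hb0 w11 w12 w13 w14 w15 w16 ⊢
  have hWpos : 0 < W := by rw [hW]; exact WW_pos X S ps
  have hWle : (W : ℝ) ≤ u ^ 2 := by
    rw [hW]
    refine (WW_le X hX1' S ps).trans ?_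
    have h1 := huk 2
    rw [← h1, Real.rpow_def_of_pos hXp]
    apply Real.exp_le_exp.2
    push_cast
    nlinarith
  have hφ0 : (0 : ℝ) < W.totient := by exact_mod_cast Nat.totient_pos.2 hWpos
  have hφW : (W.totient : ℝ) ≤ W := by exact_mod_cast Nat.totient_le W
  -- J and R
  have hfl : (2 : ℕ) ^ E ≤ ⌊X⌋₊ := by
    apply Nat.le_floor
    push_cast
    linarith
  obtain ⟨J, hJ1, hJ2⟩ := scale E hE1 hfl
  obtain ⟨R, hR⟩ : ∃ R : ℕ, R = 2 ^ 2 ^ J := ⟨_, rfl⟩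
  rw [← hR] at hJ1 hJ2
  have hR2 : 2 ≤ R := by
    rw [hR]
    calc 2 = 2 ^ 1 := rfl
      _ ≤ 2 ^ 2 ^ J := Nat.pow_le_pow_right (by norm_num) (Nat.one_le_two_pow)
  have hR0 : (0 : ℝ) < R := by exact_mod_cast (by omega : 0 < R)
  have hRE : (R : ℝ) ^ E ≤ X := by
    have h1 : ((R ^ E : ℕ) : ℝ) ≤ X := (Nat.cast_le.2 hJ1).trans (Nat.floor_le hXp.le)
    exact_mod_cast h1
  have hRE2 : X < (R : ℝ) ^ (2 * E) := by
    have h1 : ⌊X⌋₊ + 1 ≤ R ^ (2 * E) := hJ2
    have h2 : ((⌊X⌋₊ + 1 : ℕ) : ℝ) ≤ ((R ^ (2 * E) : ℕ) : ℝ) := by exact_mod_cast h1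
    have h3 := Nat.lt_floor_add_one X
    push_cast at h2
    linarith
  have hlR : 0 < Real.log R := Real.log_pos (by exact_mod_cast (by omega : 1 < R))
  have hE0 : (0 : ℝ) < E := by exact_mod_cast (by omega : 0 < E)
  have hlR1 : (E : ℝ) * Real.log R ≤ Real.log X := by
    have h1 := Real.log_le_log (by positivity) hRE
    rwa [Real.log_pow] at h1
  have hlR2 : Real.log X ≤ 2 * E * Real.log R := by
    have h1 := Real.log_le_log hXp hRE2.le
    rw [Real.log_pow] at h1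
    push_cast at h1
    linarith
  have hlRX : Real.log R ≤ Real.log X := by
    have : (1 : ℝ) ≤ E := by exact_mod_cast hE1
    nlinarith
  -- R ^ (C b) ≤ X ^ (1/100)
  have hlev : ∀ C : ℕ, C ≤ C0 + C1 → (R : ℝ) ^ (C * b) ≤ X ^ (1 / 100 : ℝ) := by
    intro C hC
    rw [← Real.rpow_natCast]
    rw [Real.rpow_def_of_pos hR0, Real.rpow_def_of_pos hXp]
    apply Real.exp_le_exp.2
    have h1 : ((C * b : ℕ) : ℝ) ≤ E / 100 := by
      rw [hE]
      push_cast
      have h2 : (C : ℝ) ≤ C0 + C1 := by exact_mod_cast hC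
      have h3 : (0 : ℝ) ≤ b := Nat.cast_nonneg _
      nlinarith
    calc Real.log R * ((C * b : ℕ) : ℝ) ≤ Real.log R * (E / 100) := by gcongr
      _ = (E * Real.log R) * (1 / 100) := by ring
      _ ≤ Real.log X * (1 / 100) := by gcongr
  have h100 : X ^ (1 / 100 : ℝ) = u ^ 10 := by
    rw [← huk 10]
    norm_num
  have hRle : (R : ℝ) ≤ u ^ 10 := by
    have h1 := hlev 1 (by omega)
    rw [h100] at h1
    refine le_trans ?_ h1
    apply le_self_pow₀ (by exact_mod_cast (by omega : 1 ≤ R))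
    rw [one_mul]
    omega
  have hJlog : (J : ℝ) + 2 ≤ 2 * Real.log X := by
    have h1 : J < 2 ^ J := Nat.lt_two_pow_self
    have h2 : Real.log R = (2 : ℝ) ^ J * Real.log 2 := by
      rw [hR]
      push_cast
      rw [Real.log_pow]
      push_cast
      ring
    have h3 : (J : ℝ) ≤ (2 : ℝ) ^ J := by exact_mod_cast h1.le
    have h4 := Real.log_two_gt_d9
    have h5 : (J : ℝ) * (6 / 10) ≤ Real.log R := by
      rw [h2]
      nlinarith [pow_pos (show (0 : ℝ) < 2 by norm_num) J]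
    linarith
  -- the small primes
  have hbZ : b ≤ Z := by rw [hZ]; omega
  have hZll : ((Z + 2 : ℕ) : ℝ) ≤ Real.log (Real.log X) := hN0
  have hsmall : ∀ p : ℕ, p.Prime → p ≤ b → p ∣ W := by
    intro p hp hpb
    rw [hW]
    unfold WW
    apply dvd_prod_of_mem
    unfold PW
    rw [mem_filter, mem_Icc]
    have hpZ : (p : ℝ) ≤ Real.log (Real.log X) := by
      have : (p : ℝ) ≤ ((Z + 2 : ℕ) : ℝ) := by exact_mod_cast (by omega : p ≤ Z + 2)
      linarith
    have h1 : (1 : ℝ) ≤ Real.log (Real.log X) := by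
      have : (1 : ℝ) ≤ ((Z + 2 : ℕ) : ℝ) := by exact_mod_cast (by omega : 1 ≤ Z + 2)
      linarith
    refine ⟨⟨hp.pos, ?_⟩, hp, ?_, ?_⟩
    · -- p ≤ yy X
      unfold yy
      apply Nat.le_floor
      linarith
    · intro hpS
      have h2 := (hS.1 p hpS).2.1
      have h3 : (p : ℝ) ≤ (Real.log (Real.log X)) ^ 3 := by
        calc (p : ℝ) ≤ Real.log (Real.log X) := hpZ
          _ ≤ (Real.log (Real.log X)) ^ 3 := le_self_pow₀ h1 (by norm_num)
      have h4 : (p : ℝ) ≤ (z2 X : ℝ) := by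
        unfold z2
        exact h3.trans (Nat.le_ceil _)
      have h5 : p ≤ z2 X := by exact_mod_cast h4
      omega
    · intro hpps
      rcases hps with h2 | h2
      · rw [h2] at hpps
        exact hp.one_lt.ne' hpps
      · omega
  -- the sieving primes
  obtain ⟨P, hP⟩ : ∃ P, P = SPr b J W ps := ⟨_, rfl⟩
  have hPm : ∀ p ∈ P, (b < p ∧ p ≤ R) ∧ p.Prime ∧ ¬ p ∣ W ∧ p ≠ ps := by
    intro p hp
    rw [hP] at hp
    have := mem_SPr.1 hp
    rw [← hR] at this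
    exact this
  obtain ⟨V1, hV1⟩ : ∃ V1 : ℝ, V1 = ∏ p ∈ P, (1 - ((Om p).card : ℝ) * (1 / ((p : ℝ) - 1))) := ⟨_, rfl⟩
  obtain ⟨V2, hV2d⟩ : ∃ V2 : ℝ, V2 = ∏ p ∈ P, (1 - (((Om p).card : ℝ) + 1) / p) := ⟨_, rfl⟩
  obtain ⟨Pi, hPi⟩ : ∃ Pi : ℝ, Pi = ∏ p ∈ P, (1 - 1 / (p : ℝ)) := ⟨_, rfl⟩
  have hV12 : V2 = V1 * Pi := by
    rw [hV2d, hV1, hPi, ← prod_mul_distrib]
    apply prod_congr rfl
    intro p hp
    exact factor_split _ (hPm p hp).2.1.two_le
  have hPi1 : Pi ≤ 1 := by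
    rw [hPi]
    apply prod_le_one
    · intro p hp
      exact (one_sub_pos' (hPm p hp).2.1).le
    · intro p _
      exact one_sub_le' p
  have hPi0 : 0 ≤ Pi := by
    rw [hPi]
    exact prod_nonneg fun p hp => (one_sub_pos' (hPm p hp).2.1).le
  have hV10 : 0 ≤ V1 := by
    rw [hV1]
    apply prod_nonneg
    intro p hp
    obtain ⟨⟨h1, _⟩, h2, _⟩ := hPm p hp
    have h3 := hOm.card p h2
    have h4 : (Om p).card + 1 ≤ p := by omega
    have h5 : ((Om p).card : ℝ) + 1 ≤ p := by exact_mod_cast h4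
    have h6 : (2 : ℝ) ≤ p := by exact_mod_cast h2.two_le
    rw [sub_nonneg, mul_one_div, div_le_one (by linarith)]
    linarith
  have hV2low : cV / (Real.log X) ^ (K + 1) ≤ V2 := by
    have h1 := hV2 P b R Om (fun p hp => ⟨(hPm p hp).2.1, (hPm p hp).1.1, (hPm p hp).1.2⟩) hbK hOm hR2
    rw [← hV2d] at h1
    refine le_trans ?_ h1
    apply div_le_div_of_nonneg_left hcV.le (by positivity)
    gcongr
  have hV21 : V2 ≤ V1 := by
    rw [hV12]
    exact mul_le_of_le_one_right hV10 hPi1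

  have hW0 : (0 : ℝ) < W := by exact_mod_cast hWpos
  have hL0 := hlX
  have hps1 : ps = 1 ∨ ps.Prime := by
    rcases hps with h2 | h2
    · exact Or.inl h2
    · exact Or.inr h2.1
  have hM'0 : 0 ≤ M' := by linarith
  have hM0' : 0 ≤ M := by linarith
  have hM'low : 9 / 16 * Z₁ ≤ M' := by linarith
  have he1 : ∀ q, 0 ≤ e₁ q := fun q => (w10 q).1
  have he2 : ∀ q, 0 ≤ e₂ q := fun q => (w10 q).2.1
  have he3 : ∀ q, 0 ≤ e₃ q := fun q => (w10 q).2.2
  -- the sizes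
  obtain ⟨L, hL⟩ : ∃ L, L = Real.log X := ⟨_, rfl⟩
  rw [← hL] at hl10 hl3 hcu hc2l hcKl hlX w9 w14 w15 w16 hV2low hJlog hlR1 hlR2 hlRX hll hN0 hUc hL0
  obtain ⟨A0, hA0⟩ : ∃ A0 : ℝ, A0 = M' * (LPhi X / W.totient) * V1 := ⟨_, rfl⟩
  obtain ⟨Y0, hY0⟩ : ∃ Y0 : ℝ, Y0 = Z₁ * (X / W) * (cV / L ^ (K + 1)) := ⟨_, rfl⟩
  have hZ0 : 0 < Z₁ := by linarith
  have hY00 : 0 < Y0 := by rw [hY0]; positivity
  have hA0X : M' * (X / 200 / W.totient) * V1 ≤ A0 := by
    rw [hA0]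
    gcongr
  have hA0low : 9 / 3200 * Y0 ≤ A0 := by
    refine le_trans ?_ hA0X
    rw [hY0]
    have h1 : X / W ≤ X / W.totient := div_le_div_of_nonneg_left hXp.le hφ0 hφW
    have h2 : cV / L ^ (K + 1) ≤ V1 := hV2low.trans hV21
    calc 9 / 3200 * (Z₁ * (X / W) * (cV / L ^ (K + 1))) = (9 / 16 * Z₁) * (1 / 200 * (X / W)) * (cV / L ^ (K + 1)) := by ring
      _ ≤ M' * (1 / 200 * (X / W.totient)) * V1 := by gcongr
      _ = _ := by ring
  have hA00 : 0 < A0 := lt_of_lt_of_le (by positivity) hA0low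
  have htotY : Z₁ * (X / ((W : ℝ) * L ^ (K + 4))) = Y0 / (cV * L ^ 3) := by
    rw [hY0]
    field_simp
    ring
  rw [htotY] at w14 w15 w16
  have hcL2 : 100000 ≤ cV * L ^ 2 := by
    rw [div_le_iff₀ hcV] at hc2l
    linarith
  have hcL1 : (K : ℝ) * 100000 ≤ cV * L := by
    rw [div_le_iff₀ hcV] at hcKl
    linarith
  have hYL2 : Y0 / (cV * L ^ 3) * L ≤ Y0 / 100000 := by
    have h1 : Y0 / (cV * L ^ 3) * L = Y0 / (cV * L ^ 2) := by
      field_simp
    rw [h1]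
    exact div_le_div_of_nonneg_left hY00.le (by norm_num) hcL2
  have hA0up : u ^ 997 / 2 ≤ A0 := by
    refine le_trans ?_ hA0low
    have h1 : u ^ 998 ≤ X / W := by
      rw [le_div_iff₀ hW0]
      calc u ^ 998 * (W : ℝ) ≤ u ^ 998 * u ^ 2 := by gcongr
        _ = X := by rw [hXu]; ring
    have h2 : 200 / u ≤ cV / L ^ (K + 1) := by
      rw [div_le_div_iff₀ (by linarith) (by positivity)]
      have h3 : 200 * L ^ (K + 1) = cV * (200 / cV * L ^ (K + 1)) := by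
        field_simp
      rw [h3]
      gcongr
    rw [hY0]
    calc u ^ 997 / 2 ≤ 9 / 16 * u ^ 997 := by
          have : 0 < u ^ 997 := by positivity
          linarith
      _ = 9 / 3200 * (1 * u ^ 998 * (200 / u)) := by
          field_simp
          ring
      _ ≤ 9 / 3200 * (Z₁ * (X / W) * (cV / L ^ (K + 1))) := by gcongr
  -- the main sum
  obtain ⟨w, hw⟩ : ∃ w : ℕ → ℝ, w = fun n => Pool.Agent.Q117.GP.wt X n * Vw ((n : ℤ) - t i) := ⟨_, rfl⟩
  have hw0 : ∀ n, 0 ≤ w n := fun n => by rw [hw]; exact mul_nonneg (wt_nonneg X n) (w1 _).1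
  obtain ⟨F, hF⟩ : ∃ F, F = (Cl X W b0).filter (fun n => ∀ p ∈ P, n % p ∉ Om p) := ⟨_, rfl⟩
  have h12b : (1 / 2 : ℝ) ^ b ≤ 1 / 8 := by
    calc (1 / 2 : ℝ) ^ b ≤ (1 / 2 : ℝ) ^ 3 := pow_le_pow_of_le_one (by norm_num) (by norm_num) hb3
      _ = 1 / 8 := by norm_num
  have hFsum : 3 / 4 * A0 ≤ ∑ n ∈ F, w n := by
    have h1 := hmain K b J b hbC0 hbC0 X hX1' (by
      have h2 := hlev C0 (by omega)
      rw [hR] at h2
      exact_mod_cast h2) (by linarith) W ps b0 hWpos hps1 hb0 t i Vw M' e₃ (fun a => (w1 a).1) hM'0 he3 (w13 i)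
    rw [← hP, ← hOmd, ← hV1, ← hA0, ← hF] at h1
    have h4 : ((J : ℝ) + 2) * tot K X W ps e₃ ≤ 1 / 8 * A0 := by
      have ht0 : 0 ≤ tot K X W ps e₃ := by
        unfold tot
        exact Finset.sum_nonneg fun q _ => mul_nonneg (by positivity) (he3 q)
      calc ((J : ℝ) + 2) * tot K X W ps e₃ ≤ 2 * L * (Y0 / (cV * L ^ 3)) := by gcongr
        _ = 2 * (Y0 / (cV * L ^ 3) * L) := by ring
        _ ≤ 2 * (Y0 / 100000) := by gcongr
        _ ≤ 1 / 8 * (9 / 3200 * Y0) := by linarith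
        _ ≤ 1 / 8 * A0 := by gcongr
    have h10 := (abs_le.1 h1).1
    have h11 : (1 / 2 : ℝ) ^ b * A0 ≤ 1 / 8 * A0 := by gcongr
    rw [hw]
    simp only
    linarith
  -- single values and non-primes
  have h100 : X ^ (1 / 100 : ℝ) = u ^ 10 := by
    rw [← huk 10]
    norm_num
  have hl3p : 0 ≤ Real.log (3 * X) := Real.log_nonneg (by linarith)
  have hVu : ∀ a, Vw a ≤ u ^ 10 := fun a => by rw [← h100]; exact (w1 a).2
  have hLam : ∀ n : ℕ, n ∈ Icc 1 ⌊3 * X⌋₊ → ArithmeticFunction.vonMangoldt n ≤ Real.log (3 * X) := by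
    intro n hn
    rw [mem_Icc] at hn
    have hn0 : (0 : ℝ) < n := by exact_mod_cast hn.1
    have h1 : (n : ℝ) ≤ 3 * X := (Nat.cast_le.2 hn.2).trans (Nat.floor_le (by positivity))
    exact ArithmeticFunction.vonMangoldt_le_log.trans (Real.log_le_log hn0 h1)
  have hwn : ∀ n : ℕ, n ∈ Icc 1 ⌊3 * X⌋₊ → w n ≤ 1 / 2 * Real.log (3 * X) * u ^ 10 := by
    intro n hn
    have h3 := hLam n hn
    have h4 := Phi_le_half ((n : ℝ) / X)
    have h5 : 0 ≤ ArithmeticFunction.vonMangoldt n := ArithmeticFunction.vonMangoldt_nonneg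
    rw [hw]
    unfold Pool.Agent.Q117.GP.wt
    exact mul_le_mul (mul_le_mul h4 h3 h5 (by norm_num)) (hVu _) (w1 _).1 (by positivity)
  have hwV : ∀ n : ℕ, n ∈ Icc 1 ⌊3 * X⌋₊ → w n ≤ Real.log (3 * X) * (Phi (n / X) * Vw ((n : ℤ) - t i)) := by
    intro n hn
    have h3 := hLam n hn
    have h4 : 0 ≤ Phi ((n : ℝ) / X) := Phi_nonneg _
    have h5 := (w1 ((n : ℤ) - t i)).1
    rw [hw]
    unfold Pool.Agent.Q117.GP.wt
    calc Phi ((n : ℝ) / X) * ArithmeticFunction.vonMangoldt n * Vw ((n : ℤ) - t i) ≤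
          Phi ((n : ℝ) / X) * Real.log (3 * X) * Vw ((n : ℤ) - t i) := by gcongr
      _ = _ := by ring
  have hnp : ∀ G : Finset ℕ, G ⊆ Icc 1 ⌊3 * X⌋₊ → ∑ n ∈ G.filter (fun n => ¬ n.Prime), w n ≤ 4 * u ^ 511 := by
    intro G hG
    have h1 := sum_nonprime_le (3 * X) (by linarith)
    have h2 : ∑ n ∈ G.filter (fun n => ¬ n.Prime), w n ≤
        (∑ n ∈ (Icc 1 ⌊3 * X⌋₊).filter (fun n => ¬ n.Prime), ArithmeticFunction.vonMangoldt n) * u ^ 10 := by
      rw [sum_mul]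
      calc ∑ n ∈ G.filter (fun n => ¬ n.Prime), w n ≤ ∑ n ∈ (Icc 1 ⌊3 * X⌋₊).filter (fun n => ¬ n.Prime), w n := by
            apply sum_le_sum_of_subset_of_nonneg
            · intro n hn
              rw [mem_filter] at hn ⊢
              exact ⟨hG hn.1, hn.2⟩
            · intro n _ _
              exact hw0 n
        _ ≤ _ := by
            apply sum_le_sum
            intro n _
            rw [hw]
            unfold Pool.Agent.Q117.GP.wt
            have h5 : 0 ≤ ArithmeticFunction.vonMangoldt n := ArithmeticFunction.vonMangoldt_nonneg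
            have h6 := Pool.Agent.H378R2.Phi_le_one ((n : ℝ) / X)
            have h7 : Phi ((n : ℝ) / X) * ArithmeticFunction.vonMangoldt n ≤ ArithmeticFunction.vonMangoldt n := by
              calc _ ≤ 1 * ArithmeticFunction.vonMangoldt n := mul_le_mul_of_nonneg_right h6 h5
                _ = _ := one_mul _
            exact mul_le_mul h7 (hVu _) (w1 _).1 h5
    have h3 : Real.sqrt (3 * X) ≤ 2 * u ^ 500 := by
      rw [Real.sqrt_le_left (by positivity)]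
      rw [mul_pow, ← pow_mul, hXu]
      have : 0 < u ^ 1000 := by positivity
      norm_num
      linarith
    calc _ ≤ _ := h2
      _ ≤ (2 * Real.sqrt (3 * X) * Real.log (3 * X)) * u ^ 10 := by gcongr
      _ ≤ (2 * (2 * u ^ 500) * u) * u ^ 10 := by gcongr
      _ = 4 * u ^ 511 := by ring
  have hClI : Cl X W b0 ⊆ Icc 1 ⌊3 * X⌋₊ := filter_subset _ _
  have hFI : F ⊆ Icc 1 ⌊3 * X⌋₊ := by
    rw [hF]
    exact (filter_subset _ _).trans hClI
  have hprime_sum : ∀ G : Finset ℕ, G ⊆ Icc 1 ⌊3 * X⌋₊ →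
      ∑ n ∈ G, w n ≤ ∑ n ∈ G.filter (fun n : ℕ => X < (n : ℝ) ∧ n.Prime), w n + 4 * u ^ 511 := by
    intro G hG
    rw [← sum_filter_add_sum_filter_not G (fun n => n.Prime)]
    apply add_le_add _ (hnp G hG)
    apply le_of_eq
    symm
    apply sum_subset
    · intro n hn
      rw [mem_filter] at hn ⊢
      exact ⟨hn.1, hn.2.2⟩
    · intro n hn hn2
      rw [mem_filter] at hn hn2
      have h2 : ¬ X < (n : ℝ) := fun h => hn2 ⟨hn.1, h, hn.2⟩
      rw [hw]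
      unfold Pool.Agent.Q117.GP.wt
      simp only
      rw [Pool.Agent.H378R2.Phi_eq_zero_of_le (by positivity) (by
        rw [div_le_one hXp]
        exact not_lt.1 h2), zero_mul, zero_mul]
  have hMPhi : MPhi X ≤ 3 / 2 * X := by
    unfold MPhi
    calc ∑ n ∈ Icc 1 ⌊3 * X⌋₊, Phi (n / X) ≤ ∑ _n ∈ Icc 1 ⌊3 * X⌋₊, (1 / 2 : ℝ) := sum_le_sum fun n _ => Phi_le_half _
      _ = (⌊3 * X⌋₊ : ℝ) * (1 / 2) := by
          rw [sum_const, Nat.card_Icc, nsmul_eq_mul, Nat.add_sub_cancel]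
      _ ≤ 3 * X * (1 / 2) := by
          gcongr
          exact Nat.floor_le (by positivity)
      _ = _ := by ring
  have hMPhi0 : 0 ≤ MPhi X := by
    unfold MPhi
    exact Finset.sum_nonneg fun n _ => Phi_nonneg _
  -- the exceptional prime
  obtain ⟨bad, hbad⟩ : ∃ bad, bad = F.filter (fun n => ps.Prime ∧ ps ≤ R ∧ n % ps ∈ Om ps) := ⟨_, rfl⟩
  have hbadI : bad ⊆ Icc 1 ⌊3 * X⌋₊ := by
    rw [hbad]
    exact (filter_subset _ _).trans hFI
  have hbadc : ∑ n ∈ bad.filter (fun n : ℕ => X < (n : ℝ) ∧ n.Prime), w n ≤ 1 / 8 * A0 := by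
    by_cases hpsp : ps.Prime ∧ ps ≤ R
    swap
    · have h1 : bad = ∅ := by
        rw [hbad]
        apply filter_eq_empty_iff.2
        intro n _ h
        exact hpsp ⟨h.1, h.2.1⟩
      rw [h1, filter_empty, sum_empty]
      positivity
    obtain ⟨hpsp, hpsR⟩ := hpsp
    have hpsZ : Z < ps := by
      rcases hps with h2 | h2
      · rw [h2] at hpsp
        exact absurd hpsp Nat.not_prime_one
      · exact h2.2
    have hpsW : ¬ ps ∣ W := by
      rw [hW]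
      unfold WW
      intro hd
      rw [hpsp.prime.dvd_finsetProd_iff] at hd
      obtain ⟨p, hp, hd⟩ := hd
      unfold PW at hp
      rw [mem_filter] at hp
      exact hp.2.2.2 ((Nat.prime_dvd_prime_iff_eq hpsp hp.2.1).1 hd).symm
    have hcoW : W.Coprime ps := (Nat.coprime_comm.1 ((Nat.Prime.coprime_iff_not_dvd hpsp).2 hpsW))
    have hps0 : (0 : ℝ) < ps := by exact_mod_cast hpsp.pos
    have hpsX : ((ps : ℕ) : ℝ) ≤ X ^ (1 / 100 : ℝ) := by
      rw [h100]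
      refine le_trans ?_ hRle
      exact_mod_cast hpsR
    obtain ⟨Q, hQ⟩ : ∃ Q : ℕ → Finset ℕ, Q = fun c => ((Icc 1 ⌊3 * X⌋₊).filter
      (fun n => n % (W * ps) = (Nat.chineseRemainder hcoW b0 c : ℕ) % (W * ps))).filter (fun n => ∀ p ∈ P, n % p ∉ insert 0 (Om p)) := ⟨_, rfl⟩
    have hV20 : 0 ≤ V2 := le_trans (by positivity) hV2low
    have hQc : ∀ c, ∑ n ∈ Q c, Phi (n / X) * Vw ((n : ℤ) - t i) ≤
        9 / 8 * (M * (3 / 2 * X / W) / ps * V2) + 2 * L * (Y0 / (cV * L ^ 3)) := by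
      intro c
      have h1 := hupp K b J b hbC1 hbC1 X hX1' (by
        have h2 := hlev C1 (by omega)
        rw [hR] at h2
        exact_mod_cast h2) W ps ps (Nat.chineseRemainder hcoW b0 c : ℕ) hWpos hps1 (Or.inr ⟨rfl, hpsp⟩) t i Vw M e₁
        (fun a => (w1 a).1) hM0' he1 (w11 ps (Or.inr ⟨rfl, hpsp⟩) hpsX i)
      rw [← hP, ← hOmd, ← hV2d] at h1
      rw [hQ]
      refine h1.trans ?_
      have ht0 : 0 ≤ tot K X W ps e₁ := by
        unfold tot
        exact Finset.sum_nonneg fun q _ => mul_nonneg (by positivity) (he1 q)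
      have h3 : ((J : ℝ) + 2) * tot K X W ps e₁ ≤ 2 * L * (Y0 / (cV * L ^ 3)) := by gcongr
      have h4 : (1 + (1 / 2 : ℝ) ^ b) * (M * (MPhi X * (1 / (W : ℝ))) * (1 / (ps : ℝ)) * V2) ≤
          9 / 8 * (M * (3 / 2 * X / W) / ps * V2) := by
        have h5 : MPhi X * (1 / (W : ℝ)) ≤ 3 / 2 * X / W := by
          rw [mul_one_div]
          gcongr
        calc (1 + (1 / 2 : ℝ) ^ b) * (M * (MPhi X * (1 / (W : ℝ))) * (1 / (ps : ℝ)) * V2) ≤
              (1 + 1 / 8) * (M * (3 / 2 * X / W) * (1 / (ps : ℝ)) * V2) := by gcongr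
          _ = _ := by ring
      linarith
    have hsub : bad.filter (fun n : ℕ => X < (n : ℝ) ∧ n.Prime) ⊆ (Om ps).biUnion Q := by
      intro n hn
      rw [mem_filter, hbad, mem_filter, hF, mem_filter] at hn
      obtain ⟨⟨⟨h1, h2⟩, _, _, h3⟩, h4, h5⟩ := hn
      rw [mem_biUnion]
      refine ⟨n % ps, h3, ?_⟩
      unfold Cl at h1
      rw [mem_filter] at h1
      rw [hQ, mem_filter, mem_filter]
      refine ⟨⟨h1.1, ?_⟩, ?_⟩
      · have hcr := (Nat.chineseRemainder hcoW b0 (n % ps)).2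
        have h6 : n ≡ (Nat.chineseRemainder hcoW b0 (n % ps) : ℕ) [MOD W * ps] := by
          rw [← Nat.modEq_and_modEq_iff_modEq_mul hcoW]
          exact ⟨h1.2.trans hcr.1.symm, (Nat.mod_modEq n ps).symm.trans hcr.2.symm⟩
        exact h6
      · intro p hp hcon
        rw [mem_insert] at hcon
        rcases hcon with hcon | hcon
        · have h6 : p ∣ n := Nat.dvd_of_mod_eq_zero hcon
          have h7 := (Nat.prime_dvd_prime_iff_eq (hPm p hp).2.1 h5).1 h6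
          have h8 : (n : ℝ) ≤ R := by exact_mod_cast (h7 ▸ (hPm p hp).1.2)
          have h9 : (R : ℝ) ≤ X := by
            refine hRle.trans ?_
            rw [hXu]
            exact pow_le_pow_right₀ (by linarith) (by norm_num)
          linarith
        · exact h2 p hp hcon
    have hQI : ∀ c, Q c ⊆ Icc 1 ⌊3 * X⌋₊ := by
      intro c
      rw [hQ]
      exact (filter_subset _ _).trans (filter_subset _ _)
    have hsumb : ∑ n ∈ bad.filter (fun n : ℕ => X < (n : ℝ) ∧ n.Prime), w n ≤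
        Real.log (3 * X) * (K * (9 / 8 * (M * (3 / 2 * X / W) / ps * V2) + 2 * L * (Y0 / (cV * L ^ 3)))) := by
      calc ∑ n ∈ bad.filter (fun n : ℕ => X < (n : ℝ) ∧ n.Prime), w n ≤ ∑ n ∈ (Om ps).biUnion Q, w n :=
            sum_le_sum_of_subset_of_nonneg hsub (fun n _ _ => hw0 n)
        _ ≤ ∑ c ∈ Om ps, ∑ n ∈ Q c, w n := by
            exact sum_biUnion_le' _ _ _ hw0
        _ ≤ ∑ c ∈ Om ps, Real.log (3 * X) * (9 / 8 * (M * (3 / 2 * X / W) / ps * V2) + 2 * L * (Y0 / (cV * L ^ 3))) := by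
            apply sum_le_sum
            intro c _
            calc ∑ n ∈ Q c, w n ≤ ∑ n ∈ Q c, Real.log (3 * X) * (Phi (n / X) * Vw ((n : ℤ) - t i)) :=
                  sum_le_sum fun n hn => hwV n (hQI c hn)
              _ = Real.log (3 * X) * ∑ n ∈ Q c, Phi (n / X) * Vw ((n : ℤ) - t i) := by rw [mul_sum]
              _ ≤ _ := by
                  apply mul_le_mul_of_nonneg_left (hQc c) hl3p
        _ = ((Om ps).card : ℝ) * (Real.log (3 * X) * (9 / 8 * (M * (3 / 2 * X / W) / ps * V2) + 2 * L * (Y0 / (cV * L ^ 3)))) := by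
            rw [sum_const, nsmul_eq_mul]
        _ ≤ (K : ℝ) * (Real.log (3 * X) * (9 / 8 * (M * (3 / 2 * X / W) / ps * V2) + 2 * L * (Y0 / (cV * L ^ 3)))) := by
            apply mul_le_mul_of_nonneg_right _ (by positivity)
            exact_mod_cast hOm.card ps hpsp
        _ = _ := by ring
    -- the Mertens product
    have hmert : (W.totient : ℝ) * Pi ≤ W * (4 * E * c₂ / L) := by
      have h1 : (W.totient : ℝ) = W * ∏ p ∈ PW X S ps, (1 - 1 / (p : ℝ)) := by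
        rw [hW]
        unfold WW
        exact totient_div _ (fun p hp => (mem_filter.1 hp).2.1)
      have h2 := phi_prod P (PW X S ps) (fun p hp => (hPm p hp).2.1) (fun p hp => (mem_filter.1 hp).2.1) (by
        rw [disjoint_left]
        intro p hp hp2
        apply (hPm p hp2).2.2.1
        rw [hW]
        unfold WW
        exact dvd_prod_of_mem _ hp) R ps (by
        intro p hp hpR hpps
        by_cases hd : p ∣ W
        · right
          rw [hW] at hd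
          unfold WW at hd
          rw [hp.prime.dvd_finsetProd_iff] at hd
          obtain ⟨q, hq, hd⟩ := hd
          have h3 := (Nat.prime_dvd_prime_iff_eq hp (mem_filter.1 hq).2.1).1 hd
          rw [h3]
          exact hq
        · left
          rw [hP]
          apply mem_SPr.2
          refine ⟨⟨?_, by rw [← hR]; exact hpR⟩, hp, hd, hpps⟩
          by_contra hcon
          exact hd (hsmall p hp (not_lt.1 hcon)))
      rw [← hPi] at h2
      have h3 := (hVb R hR2).2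
      have h4 : V R ≤ c₂ / Real.log R := by
        rw [le_div_iff₀ hlR]
        exact h3
      have h5 : c₂ / Real.log R ≤ 2 * E * c₂ / L := by
        rw [div_le_div_iff₀ hlR hlX]
        nlinarith
      rw [h1, mul_assoc]
      apply mul_le_mul_of_nonneg_left _ (Nat.cast_nonneg W)
      calc _ ≤ 2 * V R := h2
        _ ≤ 2 * (2 * E * c₂ / L) := by linarith
        _ = _ := by ring
    have hpsbig : 57600 * (K : ℝ) * E * c₂ ≤ ps := by
      have h1 : (⌈57600 * (K : ℝ) * E * c₂⌉₊ : ℝ) ≤ ps := by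
        have : ⌈57600 * (K : ℝ) * E * c₂⌉₊ ≤ ps := by
          rw [hZ] at hpsZ
          omega
        exact_mod_cast this
      exact (Nat.le_ceil _).trans h1
    have hmainbad : 2 * L * (K * (9 / 8 * (M * (3 / 2 * X / W) / ps * V2))) ≤ 1 / 16 * A0 := by
      have h1 : Pi ≤ W * (4 * E * c₂ / L) / W.totient := by
        rw [le_div_iff₀ hφ0]
        linarith
      have h2 : M ≤ 4 / 3 * M' := by linarith
      have h0 : 0 ≤ M' * (X / W.totient) * V1 := by positivity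
      calc 2 * L * (K * (9 / 8 * (M * (3 / 2 * X / W) / ps * V2)))
          = 2 * L * (K * (9 / 8 * (M * (3 / 2 * X / W) / ps * (V1 * Pi)))) := by rw [hV12]
        _ ≤ 2 * L * (K * (9 / 8 * (4 / 3 * M' * (3 / 2 * X / W) / ps * (V1 * (W * (4 * E * c₂ / L) / W.totient))))) := by
            gcongr
        _ = (57600 * (K : ℝ) * E * c₂ / ps) * (18 / 57600) * (M' * (X / W.totient) * V1) := by
            field_simp
            ring
        _ ≤ 1 * (18 / 57600) * (M' * (X / W.totient) * V1) := by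
            gcongr
            rw [div_le_one hps0]
            exact hpsbig
        _ = 1 / 16 * (M' * (X / 200 / W.totient) * V1) := by ring
        _ ≤ 1 / 16 * A0 := by linarith
    have hsecond : 2 * L * (K * (2 * L * (Y0 / (cV * L ^ 3)))) ≤ 1 / 16 * A0 := by
      have h1 : 2 * L * (K * (2 * L * (Y0 / (cV * L ^ 3)))) = 4 * (Y0 * (K / (cV * L))) := by
        field_simp
        ring
      rw [h1]
      have h2 : (K : ℝ) / (cV * L) ≤ 1 / 100000 := by
        rw [div_le_div_iff₀ (by positivity) (by norm_num)]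
        linarith
      have h3 : Y0 * (K / (cV * L)) ≤ Y0 * (1 / 100000) := by gcongr
      linarith
    refine hsumb.trans ?_
    have h0 : 0 ≤ K * (9 / 8 * (M * (3 / 2 * X / W) / ps * V2) + 2 * L * (Y0 / (cV * L ^ 3))) := by positivity
    calc Real.log (3 * X) * (K * (9 / 8 * (M * (3 / 2 * X / W) / ps * V2) + 2 * L * (Y0 / (cV * L ^ 3))))
        ≤ 2 * L * (K * (9 / 8 * (M * (3 / 2 * X / W) / ps * V2) + 2 * L * (Y0 / (cV * L ^ 3)))) :=
          mul_le_mul_of_nonneg_right hl3 h0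
      _ = 2 * L * (K * (9 / 8 * (M * (3 / 2 * X / W) / ps * V2))) + 2 * L * (K * (2 * L * (Y0 / (cV * L ^ 3)))) := by ring
      _ ≤ 1 / 16 * A0 + 1 / 16 * A0 := add_le_add hmainbad hsecond
      _ = 1 / 8 * A0 := by ring
  -- the repelled shifts
  obtain ⟨bT, hbT⟩ : ∃ bT, bT = F.filter (fun n : ℕ => 1 ≤ Tw ((n : ℤ) - t i)) := ⟨_, rfl⟩
  have hbTs : ∑ n ∈ bT, w n ≤ 1 / 16 * A0 := by
    have h1 := w12 i 1 b0 (by
      rw [mem_QQ]
      refine ⟨⟨le_rfl, ?_⟩, squarefree_one, Nat.coprime_one_left _⟩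
      apply Nat.le_floor
      rw [exp_two_LL X hXp, Nat.cast_one]
      exact Real.one_le_rpow hX1' (by norm_num)) (by
      intro p hp hp1
      exact absurd (Nat.dvd_one.1 hp1) hp.one_lt.ne')
    rw [mul_one, mul_one] at h1
    have h2 := (abs_le.1 h1).2
    have h3 : e₂ 1 ≤ Y0 / (cV * L ^ 3) := by
      refine le_trans ?_ w15
      unfold tot
      have h4 : (1 : ℕ) ∈ QQ W ps ⌊Real.exp (2 * LL X)⌋₊ := by
        rw [mem_QQ]
        refine ⟨⟨le_rfl, ?_⟩, squarefree_one, Nat.coprime_one_left _⟩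
        apply Nat.le_floor
        rw [exp_two_LL X hXp, Nat.cast_one]
        exact Real.one_le_rpow hX1' (by norm_num)
      have h5 := Finset.single_le_sum (f := fun q : ℕ => (q.divisors.card : ℝ) ^ (2 * K) * e₂ q)
        (fun q _ => mul_nonneg (by positivity) (he2 q)) h4
      refine le_trans ?_ h5
      simp
    have h4 : M₂ * (MPhi X * (1 / (W : ℝ))) ≤ 3 / 2 * (Y0 / (cV * L ^ 3)) := by
      calc M₂ * (MPhi X * (1 / (W : ℝ))) ≤ Z₁ / L ^ (K + 4) * (3 / 2 * X * (1 / (W : ℝ))) := by gcongr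
        _ = 3 / 2 * (Z₁ * (X / ((W : ℝ) * L ^ (K + 4)))) := by
            field_simp
        _ = 3 / 2 * (Y0 / (cV * L ^ 3)) := by rw [htotY]
    have h5 : ∑ n ∈ (Icc 1 ⌊3 * X⌋₊).filter (fun n => n ≡ b0 [MOD W]), Phi (n / X) * (Vw ((n : ℤ) - t i) * Tw ((n : ℤ) - t i)) ≤
        5 / 2 * (Y0 / (cV * L ^ 3)) := by
      have h6 : (1 : ℝ) / ((1 : ℕ) : ℝ) = 1 := by norm_num
      rw [h6, mul_one, mul_one] at h2
      linarith
    have h6 : ∑ n ∈ bT, w n ≤ Real.log (3 * X) *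
        ∑ n ∈ (Icc 1 ⌊3 * X⌋₊).filter (fun n => n ≡ b0 [MOD W]), Phi (n / X) * (Vw ((n : ℤ) - t i) * Tw ((n : ℤ) - t i)) := by
      rw [mul_sum]
      calc ∑ n ∈ bT, w n ≤ ∑ n ∈ bT, Real.log (3 * X) * (Phi (n / X) * (Vw ((n : ℤ) - t i) * Tw ((n : ℤ) - t i))) := by
            apply sum_le_sum
            intro n hn
            rw [hbT, mem_filter] at hn
            have h7 := hwV n (hFI hn.1)
            refine h7.trans ?_
            apply mul_le_mul_of_nonneg_left _ hl3p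
            apply mul_le_mul_of_nonneg_left _ (Phi_nonneg _)
            have h8 := (w1 ((n : ℤ) - t i)).1
            exact le_mul_of_one_le_right h8 hn.2
        _ ≤ _ := by
            apply sum_le_sum_of_subset_of_nonneg
            · intro n hn
              rw [hbT, mem_filter, hF, mem_filter] at hn
              exact hn.1.1
            · intro n _ _
              exact mul_nonneg hl3p (mul_nonneg (Phi_nonneg _) (mul_nonneg (w1 _).1 (w2 _)))
    refine h6.trans ?_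
    calc Real.log (3 * X) * ∑ n ∈ (Icc 1 ⌊3 * X⌋₊).filter (fun n => n ≡ b0 [MOD W]), Phi (n / X) * (Vw ((n : ℤ) - t i) * Tw ((n : ℤ) - t i))
        ≤ Real.log (3 * X) * (5 / 2 * (Y0 / (cV * L ^ 3))) := mul_le_mul_of_nonneg_left h5 hl3p
      _ ≤ 2 * L * (5 / 2 * (Y0 / (cV * L ^ 3))) := by gcongr
      _ = 5 * (Y0 / (cV * L ^ 3) * L) := by ring
      _ ≤ 5 * (Y0 / 100000) := by gcongr
      _ ≤ 1 / 16 * (9 / 3200 * Y0) := by linarith
      _ ≤ 1 / 16 * A0 := by gcongr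
  have hu511 : 4 * u ^ 511 ≤ 1 / 16 * A0 := by
    have h1 : 64 * u ^ 511 ≤ u ^ 997 / 2 := by
      have h2 : u ^ 997 = u ^ 486 * u ^ 511 := by ring
      have h3 : (128 : ℝ) ≤ u ^ 486 := by
        calc (128 : ℝ) = 2 ^ 7 := by norm_num
          _ ≤ u ^ 7 := by gcongr
          _ ≤ u ^ 486 := pow_le_pow_right₀ (by linarith) (by norm_num)
      rw [h2]
      calc 64 * u ^ 511 = 128 * u ^ 511 / 2 := by ring
        _ ≤ u ^ 486 * u ^ 511 / 2 := by gcongr
    linarith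
  -- the good integers
  obtain ⟨F2, hF2⟩ : ∃ F2, F2 = (F.filter (fun n => ¬ (ps.Prime ∧ ps ≤ R ∧ n % ps ∈ Om ps))).filter (fun n : ℕ => ¬ 1 ≤ Tw ((n : ℤ) - t i)) := ⟨_, rfl⟩
  have hF2I : F2 ⊆ Icc 1 ⌊3 * X⌋₊ := by
    rw [hF2]
    exact ((filter_subset _ _).trans (filter_subset _ _)).trans hFI
  have hsplit : ∑ n ∈ F, w n ≤ ∑ n ∈ bad, w n + (∑ n ∈ bT, w n + ∑ n ∈ F2, w n) := by
    rw [hbad, hF2, ← sum_filter_add_sum_filter_not F (fun n => ps.Prime ∧ ps ≤ R ∧ n % ps ∈ Om ps)]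
    apply add_le_add le_rfl
    rw [← sum_filter_add_sum_filter_not (F.filter (fun n => ¬ (ps.Prime ∧ ps ≤ R ∧ n % ps ∈ Om ps))) (fun n : ℕ => 1 ≤ Tw ((n : ℤ) - t i))]
    apply add_le_add _ le_rfl
    apply sum_le_sum_of_subset_of_nonneg
    · intro n hn
      rw [mem_filter, mem_filter] at hn
      rw [hbT, mem_filter]
      exact ⟨hn.1.1, hn.2⟩
    · intro n _ _
      exact hw0 n
  have hbadall := hprime_sum bad hbadI
  have hF2all := hprime_sum F2 hF2I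
  have hF2sum : 3 / 8 * A0 ≤ ∑ n ∈ F2.filter (fun n : ℕ => X < (n : ℝ) ∧ n.Prime), w n := by linarith
  have hF2G : F2.filter (fun n : ℕ => X < (n : ℝ) ∧ n.Prime) ⊆ GPrV (2 * E) X W b0 t i U := by
    intro n hn
    rw [mem_filter, hF2, mem_filter, mem_filter, hF, mem_filter] at hn
    obtain ⟨⟨⟨⟨h1, h2⟩, h3⟩, h3'⟩, h4, h5⟩ := hn
    unfold Cl at h1
    rw [mem_filter] at h1
    unfold GPrV
    rw [mem_filter, ← hOmd]
    refine ⟨h1.1, h4, h5, h1.2, ?_, ?_⟩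
    · intro p hp hpW hpX
      have hpR : p ≤ R := by
        have h6 : X ^ (1 / ((2 * E : ℕ) : ℝ)) < R := by
          have h7 := Real.rpow_lt_rpow hXp.le hRE2 (show (0 : ℝ) < 1 / ((2 * E : ℕ) : ℝ) by positivity)
          rwa [← Real.rpow_natCast, ← Real.rpow_mul hR0.le, mul_one_div_cancel (by positivity), Real.rpow_one] at h7
        have h8 : (p : ℝ) < R := lt_of_le_of_lt hpX h6
        exact_mod_cast h8.le
      by_cases hpps : p = ps
      · intro hcon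
        rw [hpps] at hp hcon hpR
        exact h3 ⟨hp, hpR, hcon⟩
      · apply h2
        rw [hP]
        apply mem_SPr.2
        refine ⟨⟨?_, by rw [← hR]; exact hpR⟩, hp, hpW, hpps⟩
        by_contra hcon
        exact hpW (hsmall p hp (not_lt.1 hcon))
    · intro k hk
      exact w3 _ (not_le.1 h3') k hk
  have hcardG : ∑ n ∈ F2.filter (fun n : ℕ => X < (n : ℝ) ∧ n.Prime), w n ≤
      1 / 2 * Real.log (3 * X) * u ^ 10 * ((GPrV (2 * E) X W b0 t i U).card : ℝ) := by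
    calc ∑ n ∈ F2.filter (fun n : ℕ => X < (n : ℝ) ∧ n.Prime), w n
        ≤ ((F2.filter (fun n : ℕ => X < (n : ℝ) ∧ n.Prime)).card : ℝ) * (1 / 2 * Real.log (3 * X) * u ^ 10) := by
          rw [← nsmul_eq_mul]
          apply sum_le_card_nsmul
          intro n hn
          exact hwn n (hF2I (mem_filter.1 hn).1)
      _ ≤ ((GPrV (2 * E) X W b0 t i U).card : ℝ) * (1 / 2 * Real.log (3 * X) * u ^ 10) := by
          apply mul_le_mul_of_nonneg_right _ (by positivity)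
          exact_mod_cast card_le_card hF2G
      _ = _ := by ring
  have h980 : X ^ (98 / 100 : ℝ) = u ^ 980 := by
    rw [← huk 980]
    norm_num
  rw [h980]
  have hfin : 3 / 16 * u ^ 997 ≤ 1 / 2 * u * u ^ 10 * ((GPrV (2 * E) X W b0 t i U).card : ℝ) := by
    have h1 : 1 / 2 * Real.log (3 * X) * u ^ 10 * ((GPrV (2 * E) X W b0 t i U).card : ℝ) ≤
        1 / 2 * u * u ^ 10 * ((GPrV (2 * E) X W b0 t i U).card : ℝ) := by gcongr
    linarith
  have h4 : 3 / 16 * u ^ 997 = 1 / 2 * u * u ^ 10 * (3 / 8 * u ^ 6 * u ^ 980) := by ring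
  rw [h4] at hfin
  have h5 : 0 < 1 / 2 * u * u ^ 10 := by positivity
  have h6 := le_of_mul_le_mul_left hfin h5
  refine le_trans ?_ h6
  have h7 : (1 : ℝ) ≤ 3 / 8 * u ^ 6 := by
    have h8 : (2 : ℝ) ^ 6 ≤ u ^ 6 := by gcongr
    norm_num at h8
    linarith
  calc u ^ 980 = 1 * u ^ 980 := (one_mul _).symm
    _ ≤ 3 / 8 * u ^ 6 * u ^ 980 := by gcongr

end Pool.Agent.Q117.RP
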