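import Pool.Agent.Q117.RP.Main

/-!
# Patterns isolated on both sides
-/

set_option autoImplicit false
set_option maxHeartbeats 4000000

namespace Pool.Agent.Q117.RP

open Finset Filter
open Pool.Agent.H256R2.SC (ff)
open Pool.Agent.Q117.GP (Adm)

lemma adm_shift {H : Finset ℕ} (hH : Adm H) (m : ℕ) : Adm (H.image (fun h => m + h)) := by
  classical
  intro p hp
  obtain ⟨r, hr⟩ := hH p hp
  refine ⟨r + m * (p - 1), ?_⟩
  intro h' hh' hd
  rw [mem_image] at hh'
  obtain ⟨h, hh, rfl⟩ := hh'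
  apply hr h hh
  have h1 : r + m * (p - 1) + (m + h) = (r + h) + m * p := by
    obtain ⟨q, rfl⟩ : ∃ q, p = q + 1 := ⟨p - 1, by have := hp.pos; omega⟩
    rw [Nat.add_sub_cancel]
    ring
  rw [h1] at hd
  exact (Nat.dvd_add_left (dvd_mul_left p m)).1 hd

/-- the integers `n` with `n + a ∈ (X, 3X]` prime, all `n + h`, `h ∈ H`, without prime factors `≤ X ^ (1/t)`, while every other integer at a
distance at most `D` from `n` is divisible by a prime `≤ X ^ (1/log log X)` -/
def PtsT (t : ℕ) (X D : ℝ) (H : Finset ℕ) (a : ℕ) : Set ℕ :=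
  {n | X < ((n + a : ℕ) : ℝ) ∧ ((n + a : ℕ) : ℝ) ≤ 3 * X ∧ (n + a).Prime ∧
    (∀ h ∈ H, ∀ p : ℕ, p.Prime → (p : ℝ) ≤ X ^ (1 / (t : ℝ)) → ¬ p ∣ n + h) ∧
    ∀ m : ℕ, |(m : ℝ) - n| ≤ D → (∀ h ∈ H, m ≠ n + h) → ∃ p : ℕ, p.Prime ∧ (p : ℝ) ≤ X ^ (1 / Real.log (Real.log X)) ∧ p ∣ m}

lemma PtsT_fin (t : ℕ) (X D : ℝ) (H : Finset ℕ) (a : ℕ) : (PtsT t X D H a).Finite := by
  apply (Set.finite_Iic ⌊3 * X⌋₊).subset
  intro n hn
  apply Nat.le_floor
  refine le_trans ?_ hn.2.1
  exact_mod_cast Nat.le_add_right n a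

/-- **Patterns of record diameter isolated on both sides by a distance of the record size.** -/
theorem growingT (k : ℕ) (hk : 1 ≤ k) : ∃ t : ℕ, 1 ≤ t ∧ ∃ c : ℝ, 0 < c ∧ ∃ X0 : ℝ, ∀ X : ℝ, X0 ≤ X → 0 ≤ c * ff X ∧ 2 * (c * ff X) ≤ X ∧
    ∀ H : Finset ℕ, H.card = k →
    (∀ h ∈ H, (h : ℝ) ≤ c * ff X) → Adm H → ∀ a ∈ H, X ^ (98 / 100 : ℝ) ≤ ((PtsT t X (c * ff X) H a).ncard : ℝ) := by
  classical
  obtain ⟨t, ht, c, hc, X1, h1⟩ := growingR k hk
  have hev := Pool.Agent.H312R2.RG.ev_ff c hc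
  have hf : ∀ᶠ X : ℝ in atTop, 1 ≤ c / 3 * ff X := by
    have hlog := Real.tendsto_log_atTop
    have hA : Tendsto (fun X : ℝ => Real.log (Real.log X)) atTop atTop := hlog.comp hlog
    have hB : Tendsto (fun X : ℝ => Real.log (Real.log (Real.log X))) atTop atTop := hlog.comp hA
    have hD : Tendsto (fun X : ℝ => Real.log (Real.log (Real.log (Real.log X)))) atTop atTop := hlog.comp hB
    filter_upwards [hlog.eventually_ge_atTop (3 / c), hA.eventually_ge_atTop 1, hB.eventually_ge_atTop 1, hD.eventually_ge_atTop 1]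
      with X e1 e2 e3 e4
    have hc0 : 0 < 3 / c := by positivity
    have hT0 : 0 < Real.log X := by linarith
    have h5 : Real.log (Real.log (Real.log X)) ≤ Real.log (Real.log X) := by
      have := Real.log_le_sub_one_of_pos (show 0 < Real.log (Real.log X) by linarith)
      linarith
    have h6 : Real.log X ≤ ff X := by
      unfold ff
      rw [le_div_iff₀ (by positivity)]
      have h7 : Real.log X * (Real.log (Real.log (Real.log X))) ^ 2 ≤ Real.log X * (Real.log (Real.log X)) ^ 2 := by gcongr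
      have h8 : Real.log X * (Real.log (Real.log X)) ^ 2 * 1 ≤
          Real.log X * (Real.log (Real.log X)) ^ 2 * Real.log (Real.log (Real.log (Real.log X))) := by gcongr
      linarith
    calc (1 : ℝ) = c / 3 * (3 / c) := by field_simp
      _ ≤ c / 3 * ff X := by gcongr; linarith
  obtain ⟨X2, h2⟩ := eventually_atTop.1 (hev.and hf)
  refine ⟨t, ht, c / 3, by positivity, max X1 X2, ?_⟩
  intro X hX
  obtain ⟨⟨b1, b2, b3⟩, b4⟩ := h2 X ((le_max_right _ _).trans hX)
  refine ⟨by positivity, by linarith, ?_⟩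
  intro H hHc hHle hadm a ha
  obtain ⟨F, hF⟩ : ∃ F, F = c / 3 * ff X := ⟨_, rfl⟩
  have hcF : c * ff X = 3 * F := by rw [hF]; ring
  rw [← hF] at b4 hHle ⊢
  obtain ⟨m, hm⟩ : ∃ m : ℕ, m = ⌊F⌋₊ + 1 := ⟨_, rfl⟩
  have hm1 : F ≤ m := by
    rw [hm]
    push_cast
    exact (Nat.lt_floor_add_one F).le
  have hm2 : (m : ℝ) ≤ 2 * F := by
    rw [hm]
    push_cast
    have := Nat.floor_le (show 0 ≤ F by linarith)
    linarith
  have hcard : (H.image (fun h => m + h)).card = k := by
    rw [card_image_of_injective _ (fun a b h => Nat.add_left_cancel h), hHc]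
  have h3 := h1 X ((le_max_left _ _).trans hX) (H.image (fun h => m + h)) hcard (by
    intro h' hh'
    rw [mem_image] at hh'
    obtain ⟨h, hh, rfl⟩ := hh'
    have := hHle h hh
    rw [hcF]
    push_cast
    linarith) (adm_shift hadm m) (m + a) (mem_image_of_mem _ ha)
  refine h3.trans ?_
  rw [Nat.cast_le, ← Set.ncard_coe_finset]
  refine Set.ncard_le_ncard_of_injOn (fun n => n + m) ?_ ?_ (PtsT_fin t X F H a)
  · intro n hn
    rw [mem_coe] at hn
    unfold PtsR at hn
    rw [mem_filter] at hn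
    obtain ⟨_, a1, a2, a3, a4, a5⟩ := hn
    have e1 : n + (m + a) = n + m + a := by ring
    rw [e1] at a1 a2 a3
    refine ⟨a1, a2, a3, ?_, ?_⟩
    · intro h hh p hp hpX
      have := a4 (m + h) (mem_image_of_mem _ hh) p hp hpX
      rwa [← add_assoc] at this
    · intro v hv hvH
      rw [abs_le] at hv
      push_cast at hv
      have hnv : n ≤ v := by
        have : (n : ℝ) ≤ v := by linarith [hv.1]
        exact_mod_cast this
      obtain ⟨s, rfl⟩ : ∃ s, v = n + s := ⟨v - n, by omega⟩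
      apply a5 s
      · rw [hcF]
        have := hv.2
        push_cast at this
        linarith
      · intro hs
        rw [mem_image] at hs
        obtain ⟨h, hh, rfl⟩ := hs
        exact hvH h hh (by ring)
  · intro x _ y _ hxy
    simp only at hxy
    omega

end Pool.Agent.Q117.RP
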